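import Mathlib
import Pool.Prelude.Def_H_3587d628

/-! PosSLP, the class PP and bounded-error probabilistic polynomial time with an oracle. -/

namespace Pool.Agent.MP_7d676c_lc

open N68a2faeb

/-- The value of a gate `(op, j, k)` given the values `vs` of the earlier gates:
`op = 0, 1` are the constants, `op = 2, 3, 4` are `+, -, *` applied to the gates `j` and `k`. -/
def gateVal (vs : List ℤ) (g : ℕ × ℕ × ℕ) : ℤ :=
  if g.1 = 0 then 0
  else if g.1 = 1 then 1
  else if g.1 = 2 then vs.getD g.2.1 0 + vs.getD g.2.2 0
  else if g.1 = 3 then vs.getD g.2.1 0 - vs.getD g.2.2 0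
  else vs.getD g.2.1 0 * vs.getD g.2.2 0

/-- The value of a straight-line program: the value of its last gate. -/
def value (P : List (ℕ × ℕ × ℕ)) : ℤ :=
  (P.foldl (fun vs g => vs ++ [gateVal vs g]) []).getLastD 0

/-- A valid program is nonempty; gate `i` is a constant `(0,0,0)` or `(1,0,0)`, or an operation
`2, 3, 4` on two earlier gates. -/
def Valid (P : List (ℕ × ℕ × ℕ)) : Prop :=
  P ≠ [] ∧ ∀ i : Fin P.length, P[i] = (0, 0, 0) ∨ P[i] = (1, 0, 0) ∨
    (2 ≤ P[i].1 ∧ P[i].1 ≤ 4 ∧ P[i].2.1 < i ∧ P[i].2.2 < i)

open Classical in
/-- The language PosSLP: codes (numbers in binary) of valid programs with positive value. -/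
noncomputable def PosSLP : DecisionProblem := fun x =>
  decide (∃ P : List (ℕ × ℕ × ℕ), N487b59b3.bitEncode P = x ∧ Valid P ∧ 0 < value P)

/-- The class PP: acceptance by a strict majority of the strings of length `p(|x|)`. -/
def PP : DecisionComplexityClass :=
  { L | ∃ (p : Polynomial ℕ) (R : List Bool × List Bool → Bool), IsPolyTime R ∧
      ∀ x, L x ↔ 2 ^ p.eval x.length < 2 * (Finset.univ.filter
        fun w : Fin (p.eval x.length) → Bool => R (x, List.ofFn w)).card }

/-- The first `n` answers of the oracle `A` to the adaptive queries `Q` on input `y`: each query is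
computed from `y` and the earlier answers. -/
def answers {Y : Type} (A : DecisionProblem) (Q : Y × List Bool → List Bool) (y : Y) :
    ℕ → List Bool
  | 0 => []
  | n + 1 => answers A Q y n ++ [A (Q (y, answers A Q y n))]

/-- The class BPP relative to the oracle `A`: on input `x` and random string `r` of length
`p(|x|)`, the machine asks `t(|x|)` adaptive queries computed by `Q`, then `D` gives the output,
which is correct with probability at least `2/3`. -/
def BPPrel (A : DecisionProblem) : DecisionComplexityClass :=
  { L | ∃ (p t : Polynomial ℕ) (Q : (List Bool × List Bool) × List Bool → List Bool)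
      (D : (List Bool × List Bool) × List Bool → Bool), IsPolyTime Q ∧ IsPolyTime D ∧
      ∀ x, (2 : ℚ) / 3 ≤ ((Finset.univ.filter fun r : Fin (p.eval x.length) → Bool =>
        D ((x, List.ofFn r), answers A Q (x, List.ofFn r) (t.eval x.length)) = L x).card : ℚ) /
          2 ^ p.eval x.length }

end Pool.Agent.MP_7d676c_lc
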