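import Mathlib
import Pool.Agent.MP_7d676c_lc.Defs

/-! The arithmetic of the algorithm for PosSLP.  Large numbers are integers (binary), small
parameters are natural numbers (unary). -/

namespace Pool.Agent.MP_7d676c_lc

open Finset

/-- reduction modulo `m` (zero if `m ≤ 0`) -/
def rd (m x : ℤ) : ℤ := if 0 < m then x % m else 0

/-- modular power -/
def powMod (m b e : ℤ) : ℤ := rd m (b ^ e.toNat)

/-- digit `i` of `W` in base `2 ^ L` -/
def dig (L i : ℕ) (W : ℤ) : ℤ := W / 2 ^ (L * i) % 2 ^ L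

/-- the description of a factor -/
abbrev Spec := Bool × ℤ × ℤ

/-- the summand of a factor: `(false, z, j)` sums to `z.choose j` modulo a prime `m`,
`(true, c, _)` sums to `c` minus the number of square roots of one modulo `m` -/
def fac (m : ℤ) (s : Spec) (y : ℤ) : ℤ :=
  if y < m then
    (if s.1 = true then (if y = 0 then s.2.1 else 0) - (if y * y % m = 1 then 1 else 0)
      else -(powMod m (1 + y) s.2.1 * powMod m y (m - 1 - s.2.2)))
  else 0

/-- the summand of a product of factors -/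
def term (L : ℕ) (m : ℤ) (S : List Spec) (W : ℤ) : ℤ :=
  rd m ((List.range S.length).map fun i => fac m (S.getD i default) (dig L i W)).prod

/-- the sum of one factor, modulo `m` -/
def facSum (L m : ℕ) (s : Spec) : ZMod m := ((∑ y ∈ range (2 ^ L), fac m s (y : ℕ) : ℤ) : ZMod m)

/-- exponents `i` of the central binomial coefficients `centralBinom (2 ^ i)` in `UU` -/
def zs (a : ℕ) : List ℕ :=
  List.range (2 * a) ++ (List.range (2 * a + 1)).flatMap fun _ => List.range (a + 1)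

/-- the numerator -/
def UU (a : ℕ) : ℕ := ((zs a).map fun i => Nat.centralBinom (2 ^ i)).prod

/-- factors for `UU` -/
def uS (a : ℕ) : List Spec := (zs a).map fun i => (false, 2 ^ (i + 1), 2 ^ i)

/-- factors for the indicator of primes -/
def indS (a : ℕ) : List Spec :=
  ((List.range (6 * a - 2)).map fun j => (true, 2 ^ (j + 2), 0)) ++
    List.replicate (6 * a) (false, 0, 0)

/-- the value of the indicator at primes -/
def KK (a : ℕ) : ℤ := ((List.range (6 * a - 2)).map fun j => (2 : ℤ) ^ (j + 2) - 2).prod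

/-- all factors for the modulus `m` -/
def aS (a : ℕ) (n m : ℤ) : List Spec := (false, n, 2 * n - m) :: (uS a ++ indS a)

/-- the number of bits of a witness -/
def wl (a : ℕ) : ℕ := 6 * a * ((uS a).length + (indS a).length + 2)

/-- numerators of the fractions; the denominator is `V % 2 ^ (6 * a)` -/
def aa (nm : ℤ → ℤ) (a : ℕ) (n V : ℤ) : ℤ :=
  if V % 2 ^ (6 * a) % 2 = 1 ∧ n < V % 2 ^ (6 * a) ∧ 2 ^ (2 * a) < V % 2 ^ (6 * a) ∧
      V % 2 ^ (6 * a) ≤ 2 * n then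
    rd (V % 2 ^ (6 * a)) ((2 * nm (V % 2 ^ (6 * a)) - 1) * n * (if n % 2 = 0 then -1 else 1) *
      term (6 * a) (V % 2 ^ (6 * a)) (aS a n (V % 2 ^ (6 * a))) (V / 2 ^ (6 * a)))
  else 0

/-- summand of the approximation -/
def vF (nm : ℤ → ℤ) (a : ℕ) (n V : ℤ) : ℤ :=
  2 ^ (wl a + 4) * aa nm a n V / (V % 2 ^ (6 * a))

/-- summand of the sum of fractions modulo `q` -/
def vX (nm : ℤ → ℤ) (a : ℕ) (n q V : ℤ) : ℤ :=
  rd q (aa nm a n V * powMod q (V % 2 ^ (6 * a)) (q - 2))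

/-- summand of the number of proper divisors -/
def vP (q d : ℤ) : ℤ := if 1 < d ∧ d < q ∧ q % d = 0 then 1 else 0

/-- approximation of `2 ^ (wl a + 4)` times the sum of fractions -/
def FF (nm : ℤ → ℤ) (a : ℕ) (n : ℤ) : ℤ := ∑ V ∈ range (2 ^ wl a), vF nm a n (V : ℕ)

/-- the sum of fractions modulo `q` -/
def XX (nm : ℤ → ℤ) (a : ℕ) (n q : ℤ) : ℤ := ∑ V ∈ range (2 ^ wl a), vX nm a n q (V : ℕ)

/-- `UU` modulo `q` -/
def Ub (a : ℕ) (q : ℤ) : ℤ :=
  ∑ W ∈ range (2 ^ (6 * a * (uS a).length)), term (6 * a) q (uS a) (W : ℕ)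

/-- the central binomial coefficient modulo `q` -/
def Cb (a : ℕ) (n q : ℤ) : ℤ :=
  ∑ W ∈ range (2 ^ (6 * a)), term (6 * a) q [(false, 2 * n, n)] (W : ℕ)

/-- the number of proper divisors -/
def Pr (a : ℕ) (q : ℤ) : ℤ := ∑ d ∈ range (2 ^ (6 * a)), vP q (d : ℕ)

/-- rounding -/
def rr (a : ℕ) (F : ℤ) : ℤ := (F + 2 ^ (wl a + 3)) / 2 ^ (wl a + 4)

/-- the check at one candidate `q` -/
def chk (nm : ℤ → ℤ) (a : ℕ) (n q : ℤ) : Bool :=
  decide (Pr a q = 0 ∧ 3 * 2 ^ (2 * a) < q →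
    ((2 * nm q - 1) * KK a * Ub a q + Cb a n q * (rr a (FF nm a n) - XX nm a n q)) % q = 0)

/-- the randomized test -/
def test (nm : ℤ → ℤ) (a : ℕ) (ρ n : ℤ) : Bool :=
  (List.range (24 * a)).all fun i => chk nm a n (dig (6 * a) i ρ)

/-- one step of binary search -/
def bs (nm : ℤ → ℤ) (a : ℕ) (ρ : ℤ) (s : ℤ × ℤ) : ℤ × ℤ :=
  (if test nm a ρ (s.1 + s.2 / 2) = true then s.1 else s.1 + s.2 / 2, s.2 / 2)

/-- the end point of the binary search -/
def endp (nm : ℤ → ℤ) (a : ℕ) (ρ : ℤ) : ℤ :=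
  ((bs nm a ρ)^[2 * a] (2 ^ (2 * a - 1), 2 ^ (2 * a))).1 + 1

/-- the output -/
def out (nm : ℤ → ℤ) (a : ℕ) (ρ : ℤ) : Bool :=
  decide (rr a (FF nm a (endp nm a ρ)) * 2 ^ (wl a + 4) ≤ FF nm a (endp nm a ρ))

/-- the primes of the denominator -/
def PS (a n : ℕ) : Finset ℕ := (Ioc (max n (2 ^ (2 * a))) (2 * n)).filter Nat.Prime

/-- the sum of fractions -/
def xx (nm : ℤ → ℤ) (a : ℕ) (n : ℤ) : ℚ :=
  ∑ V ∈ range (2 ^ wl a), (aa nm a n (V : ℕ) : ℚ) / ((V % 2 ^ (6 * a) : ℕ) : ℚ)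

/-- the scaled number -/
def th (N : ℤ) (a n : ℕ) : ℚ := (((2 * N - 1) * KK a * UU a : ℤ) : ℚ) / (Nat.centralBinom n : ℚ)

/-- the integer that is tested for zero -/
def QQ (N : ℤ) (nm : ℤ → ℤ) (a n : ℕ) : ℚ := th N a n - xx nm a n + (rr a (FF nm a n) : ℚ)

/-- `nm` computes the residues of `N` -/
def Res (N : ℤ) (nm : ℤ → ℤ) : Prop := ∀ m : ℤ, 0 < m → nm m ≡ N [ZMOD m]

/-- evaluation of a program modulo `m` -/
def evalMod (P : List (ℕ × ℕ × ℕ)) (m : ℤ) : ℤ :=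
  (P.foldl (fun vs g => vs ++ [rd m (gateVal vs g)]) []).getLastD 0

theorem rd_nonneg (m x : ℤ) : 0 ≤ rd m x := by
  unfold rd
  split_ifs with h
  · exact Int.emod_nonneg _ h.ne'
  · exact le_rfl

theorem rd_lt {m : ℤ} (h : 0 < m) (x : ℤ) : rd m x < m := by
  rw [rd, if_pos h]; exact Int.emod_lt_of_pos _ h

theorem rd_le_abs (m x : ℤ) : rd m x ≤ |m| := by
  by_cases h : 0 < m
  · exact (rd_lt h x).le.trans (le_abs_self m)
  · rw [rd, if_neg h]; exact abs_nonneg m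

theorem rd_modEq {m : ℤ} (h : 0 < m) (x : ℤ) : rd m x ≡ x [ZMOD m] := by
  rw [rd, if_pos h]; exact Int.mod_modEq x m

theorem cast_rd {m : ℕ} (h : 0 < m) (x : ℤ) : ((rd m x : ℤ) : ZMod m) = x :=
  (ZMod.intCast_eq_intCast_iff _ _ _).2 (rd_modEq (by exact_mod_cast h) x)

theorem cast_powMod {m : ℕ} (h : 0 < m) (b : ℤ) (e : ℕ) :
    ((powMod m b e : ℤ) : ZMod m) = (b : ZMod m) ^ e := by
  rw [powMod, cast_rd h]; simp

theorem length_aS (a : ℕ) (n m : ℤ) :
    (aS a n m).length = (uS a).length + (indS a).length + 1 := by simp [aS]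

theorem wl_eq (a : ℕ) (n m : ℤ) : wl a = 6 * a + 6 * a * (aS a n m).length := by
  rw [length_aS, wl]; ring

end Pool.Agent.MP_7d676c_lc
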