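import Mathlib
import Pool.Agent.MP_b0ee3d_lc.Num
import Pool.Agent.MP_7d676c_lc.Alg

/-! Polynomial-time integer arithmetic (integers are binary, natural numbers unary). -/

namespace Pool.Agent.MP_7d676c_lc

open Pool.Agent.MP_2e8011_lc Pool.Agent.MP_a6d740_lc Pool.Agent.MP_b0ee3d_lc

variable {α β : Type} [Enc α] [Enc β]

theorem sz_int_Arith (z : ℤ) : sz z = 2 * z.toNat.size + 1 + (-z).toNat.size := by
  have e : sz z = sz (Bin.mk z.toNat, Bin.mk (-z).toNat) := rfl
  rw [e, sz_prod, sz_bin, sz_bin]

theorem sz_int_le {z : ℤ} {k : ℕ} (h : |z| ≤ 2 ^ k) : sz z ≤ 3 * k + 4 := by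
  have h1 : (2 : ℤ) ^ k = ((2 ^ k : ℕ) : ℤ) := by push_cast; rfl
  have h2 : 0 < 2 ^ k := Nat.two_pow_pos k
  rw [h1, abs_le] at h
  have a1 : z.toNat.size ≤ k + 1 := Nat.size_le.mpr (by rw [pow_succ]; omega)
  have a2 : (-z).toNat.size ≤ k + 1 := Nat.size_le.mpr (by rw [pow_succ]; omega)
  rw [sz_int_Arith]
  omega

theorem abs_lt_sz (z : ℤ) : |z| < 2 ^ sz z := by
  have a1 : z.toNat < 2 ^ sz z := Nat.size_le.mp (by rw [sz_int_Arith]; omega)
  have a2 : (-z).toNat < 2 ^ sz z := Nat.size_le.mp (by rw [sz_int_Arith]; omega)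
  have h1 : (2 : ℤ) ^ sz z = ((2 ^ sz z : ℕ) : ℤ) := by push_cast; rfl
  rw [h1, abs_lt]
  omega

@[fun_prop] theorem pt_take [Inhabited β] {l : α → List β} {n : α → ℕ} (hn : PT n) (hl : PT l) :
    PT (fun a => (l a).take (n a)) := by
  refine (PT.drop (hl.length.sub hn) hl.reverse).reverse.congr fun a => ?_
  rw [List.drop_reverse, List.reverse_reverse, List.take_eq_take_iff]
  omega

@[fun_prop] theorem pt_getLastD [Inhabited β] {l : α → List β} {d : α → β} (hl : PT l)
    (hd : PT d) : PT (fun a => (l a).getLastD (d a)) := by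
  refine (hl.reverse.headD hd).congr fun a => ?_
  rw [List.headD_eq_head?_getD, List.head?_reverse, List.getLastD_eq_getLast?]

@[fun_prop] theorem pt_valZ {l : α → List Bool} (hl : PT l) : PT (fun a => (valL (l a) : ℤ)) := by
  have key : ∀ m : List Bool, m.foldr Bin.bit ⟨0⟩ = ⟨valL m⟩ := by
    intro m
    induction m with
    | nil => rfl
    | cons b m ih => rw [List.foldr_cons, ih]; rfl
  have := pt_foldr (f := fun _ => Bin.bit) (by fun_prop) hl (PT.const (⟨0⟩ : Bin)) hl.pb_length
    (fun a k => by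
      rw [key]
      exact (sz_bin_le (valL_lt _)).trans (by simp))
  exact pt_diff this (PT.const ⟨0⟩) fun a => by rw [key]; simp

@[fun_prop] theorem pt_intLe {f g : α → ℤ} {i : ∀ a, Decidable (f a ≤ g a)} (hf : PT f)
    (hg : PT g) : PT (fun a => @decide (f a ≤ g a) (i a)) := by
  exact (pt_intLt (i := fun _ => inferInstance) hg hf).not.congr fun a => by
    by_cases h : f a ≤ g a
    · simp [h]
    · simp [h, not_le.mp h]

/-- one step of long division -/
def divStep_Arith (d : ℤ) (b : Bool) (s : ℤ × ℤ) : ℤ × ℤ :=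
  if d ≤ 2 * s.2 + (bif b then 1 else 0) then (2 * s.1 + 1, 2 * s.2 + (bif b then 1 else 0) - d)
  else (2 * s.1, 2 * s.2 + (bif b then 1 else 0))

theorem foldr_divStep_Arith {d : ℤ} (hd : 0 < d) (l : List Bool) :
    l.foldr (divStep_Arith d) (0, 0) = ((valL l : ℤ) / d, (valL l : ℤ) % d) := by
  induction l with
  | nil => simp
  | cons b l ih =>
    rw [List.foldr_cons, ih, valL_cons, divStep_Arith]
    have h1 := Int.emod_add_mul_ediv (valL l : ℤ) d
    have h2 := Int.emod_nonneg (valL l : ℤ) hd.ne'
    have h3 := Int.emod_lt_of_pos (valL l : ℤ) hd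
    have h4 : (bif b then 1 else 0 : ℤ) = b.toNat := by cases b <;> rfl
    have h5 : b.toNat ≤ 1 := Bool.toNat_le b
    rw [h4]
    push_cast
    split_ifs with h
    · refine (Prod.ext_iff.mpr ((Int.ediv_emod_unique hd).mpr ⟨?_, ?_, ?_⟩)).symm
      · dsimp only
        linear_combination 2 * h1
      · dsimp only at h ⊢
        omega
      · dsimp only
        omega
    · refine (Prod.ext_iff.mpr ((Int.ediv_emod_unique hd).mpr ⟨?_, ?_, ?_⟩)).symm
      · dsimp only
        linear_combination 2 * h1
      · dsimp only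
        omega
      · dsimp only at h ⊢
        omega

theorem pt_divPos_Arith {x d : α → ℤ} (hx : PT x) (hd : PT d) (h : ∀ a, 0 < d a) :
    PT (fun a => ((x a).toNat : ℤ) / d a) := by
  have hb := pt_binBits (pt_pos hx)
  have := pt_foldr (f := fun a => divStep_Arith (d a)) (by unfold divStep_Arith; fun_prop) hb
    (PT.const ((0, 0) : ℤ × ℤ)) (B := fun a => 9 * (x a).toNat.bits.length + 13)
    (((PB.const 9).mul hb.pb_length).add (PB.const 13)) (fun a k => by
      rw [foldr_divStep_Arith (h a), sz_prod]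
      set l := (x a).toNat.bits.drop k
      have h1 : l.length ≤ (x a).toNat.bits.length := by simp [l]
      have h2 : (valL l : ℤ) ≤ 2 ^ l.length := by exact_mod_cast (valL_lt l).le
      have h3 : (0 : ℤ) ≤ valL l := Int.natCast_nonneg _
      have h4 : sz ((valL l : ℤ) / d a) ≤ 3 * l.length + 4 := sz_int_le (by
        rw [abs_of_nonneg (Int.ediv_nonneg h3 (h a).le)]
        exact (Int.ediv_le_self _ h3).trans h2)
      have h5 : sz ((valL l : ℤ) % d a) ≤ 3 * l.length + 4 := sz_int_le (by
        rw [abs_of_nonneg (Int.emod_nonneg _ (h a).ne'), Int.emod_def]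
        have := mul_nonneg (h a).le (Int.ediv_nonneg h3 (h a).le)
        omega)
      omega)
  exact this.fst.congr fun a => by rw [foldr_divStep_Arith (h a), valL_bits]

@[fun_prop] theorem pt_ediv {f g : α → ℤ} (hf : PT f) (hg : PT g) : PT (fun a => f a / g a) := by
  have hD : PT (fun a => if 0 < g a then g a else if g a < 0 then -g a else 1) := by fun_prop
  have h0 : ∀ a, 0 < (if 0 < g a then g a else if g a < 0 then -g a else 1) := fun a => by
    split_ifs <;> omega
  have h1 := pt_divPos_Arith hf hD h0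
  have h2 := pt_divPos_Arith (x := fun a => -f a - 1) (by fun_prop) hD h0
  have h3 : PT (fun a => f a / (if 0 < g a then g a else if g a < 0 then -g a else 1)) := by
    refine (PT.ite (p := fun a => f a < 0) (i := fun _ => inferInstance) (by fun_prop)
      (pt_intNeg (pt_intAdd h2 (PT.const 1))) h1).congr fun a => ?_
    by_cases h : f a < 0
    · rw [if_pos h, Int.toNat_of_nonneg (by omega)]
      exact (Int.ediv_of_neg_of_pos h (h0 a)).symm
    · rw [if_neg h, Int.toNat_of_nonneg (by omega)]
  refine (PT.ite (p := fun a => 0 < g a) (i := fun _ => inferInstance) (by fun_prop) h3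
    (PT.ite (p := fun a => g a < 0) (i := fun _ => inferInstance) (by fun_prop) (pt_intNeg h3)
      (PT.const 0))).congr fun a => ?_
  by_cases h : 0 < g a
  · simp only [if_pos h]
  · by_cases h' : g a < 0
    · simp only [if_neg h, if_pos h', Int.ediv_neg, neg_neg]
    · rw [if_neg h, if_neg h', show g a = 0 by omega, Int.ediv_zero]

@[fun_prop] theorem pt_emod {f g : α → ℤ} (hf : PT f) (hg : PT g) : PT (fun a => f a % g a) := by
  exact (pt_intSub hf (pt_intMul hg (pt_ediv hf hg))).congr fun a => (Int.emod_def _ _).symm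

@[fun_prop] theorem pt_rd {f g : α → ℤ} (hf : PT f) (hg : PT g) :
    PT (fun a => rd (f a) (g a)) := by
  unfold rd
  fun_prop

/-- one step of modular exponentiation -/
def powStep_Arith (m x : ℤ) (b : Bool) (s : ℤ) : ℤ := rd m (s * s * bif b then x else 1)

theorem foldr_powStep_Arith (m x : ℤ) (l : List Bool) :
    l.foldr (powStep_Arith m x) (rd m 1) = rd m (x ^ valL l) := by
  induction l with
  | nil => simp
  | cons b l ih =>
    rw [List.foldr_cons, ih, valL_cons, powStep_Arith]
    by_cases h : 0 < m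
    · have e : (bif b then x else 1) = x ^ b.toNat := by cases b <;> simp
      have := ((rd_modEq h (x ^ valL l)).mul (rd_modEq h (x ^ valL l))).mul_right (x ^ b.toNat)
      rw [e, pow_add, two_mul, pow_add, rd, if_pos h, rd.eq_def m (_ * _ * _), if_pos h]
      exact this
    · simp only [rd, if_neg h]

@[fun_prop] theorem pt_powMod {m b e : α → ℤ} (hm : PT m) (hb : PT b) (he : PT e) :
    PT (fun a => powMod (m a) (b a) (e a)) := by
  have := pt_foldr (f := fun a => powStep_Arith (m a) (b a)) (by unfold powStep_Arith; fun_prop)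
    (pt_binBits (pt_pos he)) (pt_rd hm (PT.const 1)) (B := fun a => 3 * sz (m a) + 4)
    (((PB.const 3).mul hm.pb_sz).add (PB.const 4)) (fun a k => by
      rw [foldr_powStep_Arith]
      refine sz_int_le ?_
      rw [abs_of_nonneg (rd_nonneg _ _)]
      exact (rd_le_abs _ _).trans (abs_lt_sz _).le)
  exact this.congr fun a => by rw [foldr_powStep_Arith, valL_bits]; rfl

@[fun_prop] theorem pt_listProd {l : α → List ℤ} (hl : PT l) : PT (fun a => (l a).prod) := by
  have key : ∀ m : List ℤ, |m.prod| ≤ 2 ^ sz m := by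
    intro m
    induction m with
    | nil => simp
    | cons z m ih =>
      rw [List.prod_cons, abs_mul, sz_cons, pow_add]
      exact mul_le_mul ((abs_lt_sz z).le.trans (pow_le_pow_right₀ (by norm_num) (by omega))) ih
        (abs_nonneg _) (by positivity)
  exact pt_foldr (f := fun _ (x y : ℤ) => x * y) (by fun_prop) hl (PT.const 1)
    (B := fun a => 3 * sz (l a) + 4) (((PB.const 3).mul hl.pb_sz).add (PB.const 4)) fun a k =>
      sz_int_le ((key _).trans (pow_le_pow_right₀ (by norm_num) (sz_drop_le _ _)))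

@[fun_prop] theorem pt_dig {L i : α → ℕ} {W : α → ℤ} (hL : PT L) (hi : PT i) (hW : PT W) :
    PT (fun a => dig (L a) (i a) (W a)) := by
  unfold dig
  fun_prop

end Pool.Agent.MP_7d676c_lc
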