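import Mathlib
import Pool.Agent.MP_7d676c_lc.Alg

/-! Divisibility properties of central binomial coefficients, and size bounds. -/

namespace Pool.Agent.MP_7d676c_lc

open Finset

/-- the product of the first `k` factors -/
def W_Binom (k : ℕ) : ℕ := ((List.range k).map fun i => Nat.centralBinom (2 ^ i)).prod

theorem UU_eq_Binom (a : ℕ) : UU a = W_Binom (2 * a) * W_Binom (a + 1) ^ (2 * a + 1) := by
  have h : ∀ m : ℕ, (((List.range m).flatMap fun _ => List.range (a + 1)).map
      fun i => Nat.centralBinom (2 ^ i)).prod = W_Binom (a + 1) ^ m := by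
    intro m
    induction m with
    | zero => simp
    | succ m ih =>
      rw [List.range_succ (n := m), List.flatMap_append, List.map_append, List.prod_append, ih,
        pow_succ, List.flatMap_singleton]
      rfl
  rw [UU, zs, List.map_append, List.prod_append, h]
  rfl

theorem dvd_W_Binom {p k : ℕ} (hp : p.Prime) (h : p ≤ 2 ^ k) : p ∣ W_Binom k := by
  induction k with
  | zero => exact absurd hp.two_le (by omega)
  | succ k ih =>
    rw [W_Binom, List.range_succ, List.map_append, List.prod_append]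
    by_cases hk : p ≤ 2 ^ k
    · exact (ih hk).mul_right _
    · refine Dvd.dvd.mul_left ?_ _
      rw [List.map_singleton, List.prod_singleton, Nat.centralBinom_eq_two_mul_choose]
      rw [pow_succ] at h
      exact hp.dvd_choose (by omega) (by omega) (by omega)

theorem W_le_Binom (k : ℕ) : W_Binom k ≤ 2 ^ (2 * 2 ^ k) := by
  induction k with
  | zero => simp [W_Binom]
  | succ k ih =>
    rw [W_Binom, List.range_succ, List.map_append, List.prod_append, List.map_singleton,
      List.prod_singleton, Nat.centralBinom_eq_two_mul_choose, pow_succ, ← mul_assoc, mul_two,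
      pow_add]
    exact Nat.mul_le_mul ih (Nat.choose_le_two_pow _ _)

theorem cb_dvd (a n : ℕ) (h1 : 2 ^ (2 * a) ≤ 2 * n) (h2 : 2 * n ≤ 3 * 2 ^ (2 * a)) :
    Nat.centralBinom n ∣ UU a * ∏ p ∈ PS a n, p := by
  refine (Nat.dvd_iff_prime_pow_dvd_dvd _ _).2 fun p k hp hk => ?_
  have hk' := (hp.pow_dvd_iff_le_factorization (Nat.centralBinom_ne_zero n)).1 hk
  have hpos : 0 < 2 ^ (2 * a) := by positivity
  have h3 : 2 * n < 2 ^ (2 * a + 2) := by rw [pow_add]; omega
  rw [UU_eq_Binom]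
  by_cases c1 : p ≤ 2 ^ (a + 1)
  · have h4 : (Nat.centralBinom n).factorization p ≤ Nat.log p (2 * n) :=
      Nat.factorization_choose_le_log
    have h5 : Nat.log p (2 * n) < 2 * a + 2 :=
      Nat.log_lt_of_lt_pow (by omega) (h3.trans_le (Nat.pow_le_pow_left hp.two_le _))
    exact (((pow_dvd_pow p (by omega)).trans
      (pow_dvd_pow_of_dvd (dvd_W_Binom hp c1) (2 * a + 1))).mul_left _).mul_right _
  have h4 : (Nat.centralBinom n).factorization p ≤ 1 := by
    refine Nat.factorization_choose_le_one (h3.trans_le ?_)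
    calc 2 ^ (2 * a + 2) = (2 ^ (a + 1)) ^ 2 := by ring
      _ ≤ p ^ 2 := Nat.pow_le_pow_left (by omega) 2
  rcases Nat.eq_zero_or_pos k with rfl | hk0
  · simp
  obtain rfl : k = 1 := by omega
  rw [pow_one]
  by_cases c2 : p ≤ 2 ^ (2 * a)
  · exact ((dvd_W_Binom hp c2).mul_right _).mul_right _
  have h5 : 2 ≤ 2 ^ (a + 1) := by
    rw [pow_succ]
    have : 0 < 2 ^ a := by positivity
    omega
  by_cases c3 : p ≤ n
  · have := Nat.factorization_centralBinom_of_two_mul_self_lt_three_mul (n := n) (p := p)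
      (by omega) c3 (by omega)
    omega
  have c4 : p ≤ 2 * n := by
    by_contra c4
    have := Nat.factorization_centralBinom_eq_zero_of_two_mul_lt (n := n) (p := p) (by omega)
    omega
  refine Dvd.dvd.mul_left (dvd_prod_of_mem (fun p => p) ?_) _
  rw [PS, mem_filter, mem_Ioc]
  exact ⟨⟨max_lt (by omega) (by omega), c4⟩, hp⟩

theorem asc_Binom (p j : ℕ) : (((p + 1).ascFactorial j : ℕ) : ZMod p) = (j.factorial : ℕ) := by
  induction j with
  | zero => simp
  | succ j ih =>
    rw [Nat.ascFactorial_succ, Nat.factorial_succ]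
    push_cast
    rw [ih, ZMod.natCast_self]
    ring

theorem cb_inv (n p : ℕ) (hp : p.Prime) (h1 : n < p) (h2 : p ≤ 2 * n) :
    ∃ c : ℕ, Nat.centralBinom n = p * c ∧
      (c : ZMod p) * ((-1) ^ (n + 1) * (n : ZMod p) * (n.choose (2 * n - p) : ZMod p)) = 1 := by
  have := Fact.mk hp
  obtain ⟨c, hc⟩ : p ∣ Nat.centralBinom n := by
    rw [Nat.centralBinom_eq_two_mul_choose]
    exact hp.dvd_choose h1 (by omega) h2
  refine ⟨c, hc, ?_⟩
  obtain ⟨j, hj⟩ : ∃ j, j = 2 * n - p := ⟨_, rfl⟩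
  obtain ⟨b, hb⟩ : ∃ b, b = p - 1 - n := ⟨_, rfl⟩
  rw [← hj]
  have e1 : c * n.factorial * n.factorial = (p - 1).factorial * (p + 1).ascFactorial j := by
    have a1 := Nat.choose_mul_factorial_mul_factorial (n := 2 * n) (k := n) (by omega)
    have a2 := Nat.factorial_mul_ascFactorial p j
    rw [← Nat.centralBinom_eq_two_mul_choose, hc, show 2 * n - n = n by omega] at a1
    rw [show p + j = 2 * n by omega, ← a1, ← Nat.mul_factorial_pred hp.ne_zero] at a2
    apply Nat.eq_of_mul_eq_mul_left hp.pos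
    linear_combination a2.symm
  have e2 := Nat.factorial_mul_descFactorial (n := p - 1) (k := n) (by omega)
  have e3 := Nat.choose_mul_factorial_mul_factorial (n := n) (k := j) (by omega)
  rw [show n - j = b + 1 by omega, Nat.factorial_succ] at e3
  rw [← hb] at e2
  have f1 := congrArg (Nat.cast : ℕ → ZMod p) e1
  have f2 := congrArg (Nat.cast : ℕ → ZMod p) e2
  have f3 := congrArg (Nat.cast : ℕ → ZMod p) e3
  have f4 : (b : ZMod p) + 1 = -n := by
    have := congrArg (Nat.cast : ℕ → ZMod p) (show b + 1 + n = p by omega)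
    push_cast at this
    rw [ZMod.natCast_self] at this
    linear_combination this
  push_cast at f1 f2 f3
  rw [ZMod.wilsons_lemma, asc_Binom] at f1
  rw [ZMod.wilsons_lemma, ZMod.cast_descFactorial h1.le] at f2
  rw [f4] at f3
  have hs : ((-1 : ZMod p) ^ n) ^ 2 = 1 := by rw [← pow_mul, mul_comm, pow_mul]; simp
  rw [pow_succ]
  generalize (-1 : ZMod p) ^ n = s at *
  generalize (n.factorial : ZMod p) = A at *
  generalize (b.factorial : ZMod p) = B at *
  generalize (j.factorial : ZMod p) = J at *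
  generalize (n.choose j : ZMod p) = C at *
  have hA : A ≠ 0 := by
    rintro rfl
    simp at f2
  apply mul_right_cancel₀ hA
  linear_combination f3 + C * n * B * f1 - c * n * C * A * s * f2 + c * n * C * A * B * A * hs

theorem KK_pos (a : ℕ) : 0 < KK a := by
  refine List.prod_pos fun x hx => ?_
  obtain ⟨j, -, rfl⟩ := List.mem_map.1 hx
  have : (0 : ℤ) < 2 ^ j := by positivity
  rw [pow_add]
  omega

theorem UU_pos (a : ℕ) : 0 < UU a := by
  refine List.prod_pos fun x hx => ?_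
  obtain ⟨j, -, rfl⟩ := List.mem_map.1 hx
  exact Nat.centralBinom_pos _

theorem KK_le_Binom (k : ℕ) :
    ((List.range k).map fun j => (2 : ℤ) ^ (j + 2) - 2).prod ≤ 2 ^ ((k + 2) * k) := by
  induction k with
  | zero => simp
  | succ k ih =>
    rw [List.range_succ, List.map_append, List.prod_append, List.map_singleton,
      List.prod_singleton]
    have h0 : (0 : ℤ) < 2 ^ k := by positivity
    calc _ ≤ (2 : ℤ) ^ ((k + 2) * k) * 2 ^ (k + 2) :=
          mul_le_mul ih (by omega) (by rw [pow_add]; omega) (by positivity)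
      _ = 2 ^ ((k + 2) * k + (k + 2)) := by rw [← pow_add]
      _ ≤ _ := pow_le_pow_right₀ (by norm_num) (by nlinarith)

theorem size_bound (a : ℕ) (ha : 8 ≤ a) (N : ℤ) (hN : |N| ≤ 2 ^ 2 ^ (a - 8)) :
    8 * 2 ^ (2 * a) * |(2 * N - 1) * KK a * UU a| ≤ 2 ^ (3 * 2 ^ (2 * a)) := by
  have h1 : |2 * N - 1| ≤ 2 ^ (2 ^ (a - 8) + 2) := by
    have h0 : (0 : ℤ) < 2 ^ 2 ^ (a - 8) := by positivity
    rw [pow_add, abs_le] at *
    omega
  have h2 : KK a ≤ 2 ^ (36 * a ^ 2) :=
    (KK_le_Binom _).trans (pow_le_pow_right₀ (by norm_num) (by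
      rw [show 6 * a - 2 + 2 = 6 * a by omega]
      calc 6 * a * (6 * a - 2) ≤ 6 * a * (6 * a) := Nat.mul_le_mul_left _ (Nat.sub_le _ _)
        _ = _ := by ring))
  have h3 : (UU a : ℤ) ≤ 2 ^ (2 * 2 ^ (2 * a) + 2 * 2 ^ (a + 1) * (2 * a + 1)) := by
    have : UU a ≤ 2 ^ (2 * 2 ^ (2 * a) + 2 * 2 ^ (a + 1) * (2 * a + 1)) := by
      rw [UU_eq_Binom, pow_add 2 (2 * 2 ^ (2 * a)), pow_mul 2 (2 * 2 ^ (a + 1))]
      exact Nat.mul_le_mul (W_le_Binom _) (Nat.pow_le_pow_left (W_le_Binom _) _)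
    exact_mod_cast this
  have h4 : ∀ b : ℕ, 32 * (b + 8) ≤ 2 ^ (b + 8) := by
    intro b
    induction b with
    | zero => norm_num
    | succ b ih => rw [show b + 1 + 8 = b + 8 + 1 by ring, pow_succ]; omega
  have h5 := h4 (a - 8)
  rw [show a - 8 + 8 = a by omega] at h5
  have h6 : 2 ^ (a - 8) ≤ 2 ^ a := Nat.pow_le_pow_right (by norm_num) (by omega)
  have hK := KK_pos a
  rw [abs_mul, abs_mul, abs_of_pos hK, Nat.abs_cast]
  calc _ ≤ (8 : ℤ) * 2 ^ (2 * a) * (2 ^ (2 ^ (a - 8) + 2) * 2 ^ (36 * a ^ 2) *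
        2 ^ (2 * 2 ^ (2 * a) + 2 * 2 ^ (a + 1) * (2 * a + 1))) := by gcongr
    _ = 2 ^ (3 + 2 * a + (2 ^ (a - 8) + 2 + 36 * a ^ 2 +
        (2 * 2 ^ (2 * a) + 2 * 2 ^ (a + 1) * (2 * a + 1)))) := by
      rw [pow_add 2 (3 + 2 * a), pow_add 2 3, pow_add 2 (2 ^ (a - 8) + 2 + 36 * a ^ 2),
        pow_add 2 (2 ^ (a - 8) + 2)]
      norm_num
    _ ≤ _ := by
      refine pow_le_pow_right₀ (by norm_num) ?_
      rw [pow_succ 2 a, mul_comm 2 a, pow_mul, pow_two (2 ^ a)]
      generalize 2 ^ (a - 8) = s at *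
      generalize 2 ^ a = t at *
      nlinarith

end Pool.Agent.MP_7d676c_lc
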