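import Mathlib
import Pool.Agent.MP_7d676c_lc.Alg

/-! Sums over digits and binomial coefficients as sums modulo a prime. -/

namespace Pool.Agent.MP_7d676c_lc

open Finset

theorem sum_range_mul {M : Type*} [AddCommMonoid M] (B C : ℕ) (h : ℕ → ℕ → M) :
    ∑ W ∈ range (B * C), h (W % B) (W / B) = ∑ y ∈ range B, ∑ w ∈ range C, h y w := by
  induction C with
  | zero => simp
  | succ C ih =>
    rw [Nat.mul_succ, sum_range_add, ih, ← sum_add_distrib]
    refine sum_congr rfl fun y hy => ?_
    have hy' := mem_range.1 hy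
    rw [sum_range_succ, Nat.mul_add_mod, Nat.mod_eq_of_lt hy',
      Nat.mul_add_div (Nat.zero_lt_of_lt hy'), Nat.div_eq_of_lt hy', add_zero]

theorem dig_zero_Sums (L W : ℕ) : dig L 0 (W : ℕ) = ((W % 2 ^ L : ℕ) : ℤ) := by
  simp [dig]

theorem dig_succ_Sums (L i W : ℕ) : dig L (i + 1) (W : ℕ) = dig L i ((W / 2 ^ L : ℕ) : ℤ) := by
  unfold dig
  rw [Nat.mul_succ, add_comm, pow_add, ← Int.ediv_ediv_of_nonneg (by positivity)]
  simp

theorem sum_dig {R : Type*} [CommSemiring R] (L t : ℕ) (g : ℕ → ℤ → R) :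
    ∑ W ∈ range (2 ^ (L * t)), ∏ i ∈ range t, g i (dig L i (W : ℕ)) =
      ∏ i ∈ range t, ∑ y ∈ range (2 ^ L), g i (y : ℕ) := by
  induction t generalizing g with
  | zero => simp
  | succ t ih =>
    rw [Nat.mul_succ, add_comm (L * t), pow_add, prod_range_succ', ← ih fun i => g (i + 1),
      sum_mul_sum, sum_comm, ← sum_range_mul (2 ^ L) (2 ^ (L * t))
        fun y w => (∏ i ∈ range t, g (i + 1) (dig L i (w : ℕ))) * g 0 (y : ℕ)]
    refine sum_congr rfl fun W _ => ?_
    rw [prod_range_succ', dig_zero_Sums]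
    simp only [dig_succ_Sums]

theorem list_range_Sums {R : Type*} [CommMonoid R] (n : ℕ) (f : ℕ → R) :
    ((List.range n).map f).prod = ∏ i ∈ range n, f i := by
  induction n with
  | zero => simp
  | succ n ih => rw [List.prod_range_succ, prod_range_succ, ih]

theorem list_map_Sums {R : Type*} (S : List Spec) (f : Spec → R) :
    S.map f = (List.range S.length).map fun i => f (S.getD i default) := by
  refine List.ext_getElem (by simp) fun i h1 h2 => ?_
  have h3 : i < S.length := by simpa using h1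
  simp [h3]

theorem sum_term (L m : ℕ) (hm : 0 < m) (S : List Spec) :
    ((∑ W ∈ range (2 ^ (L * S.length)), term L m S (W : ℕ) : ℤ) : ZMod m) =
      (S.map (facSum L m)).prod := by
  rw [list_map_Sums, list_range_Sums, Int.cast_sum]
  simp only [term, cast_rd hm, list_range_Sums, Int.cast_prod, facSum, Int.cast_sum]
  exact sum_dig L S.length fun i y => ((fac m (S.getD i default) y : ℤ) : ZMod m)

theorem sum_pow_Sums (p : ℕ) [Fact p.Prime] {e : ℕ} (he : e ≠ 0) :
    ∑ y ∈ range p, (y : ZMod p) ^ e = if p - 1 ∣ e then -1 else 0 := by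
  classical
  have h1 : ∑ y ∈ range p, (y : ZMod p) ^ e = ∑ x : ZMod p, x ^ e := by
    refine sum_nbij' (fun y => (y : ZMod p)) ZMod.val (fun _ _ => mem_univ _)
      (fun x _ => mem_range.2 (ZMod.val_lt x)) (fun y hy => ZMod.val_cast_of_lt (mem_range.1 hy))
      (fun x _ => ZMod.natCast_zmod_val x) fun _ _ => rfl
  have h2 := FiniteField.sum_pow_units (ZMod p) e
  rw [ZMod.card] at h2
  rw [h1, ← h2]
  let φ : (ZMod p)ˣ ↪ ZMod p := ⟨fun x => x, Units.val_injective⟩
  have h3 : univ.map φ = univ \ {0} := by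
    ext x
    simpa only [mem_map, mem_univ, Function.Embedding.coeFn_mk, true_and, mem_sdiff,
      mem_singleton, φ] using! isUnit_iff_ne_zero
  rw [← sum_sdiff ({0} : Finset (ZMod p)).subset_univ, sum_singleton, zero_pow he, add_zero, ← h3,
    sum_map]
  simp [φ]

theorem facSum_choose (L p z j : ℕ) (hp : p.Prime) (hL : p ≤ 2 ^ L) (hj : j + 1 < p)
    (hz : z + 1 < j + p) : facSum L p (false, (z : ℤ), (j : ℤ)) = (z.choose j : ZMod p) := by
  have := Fact.mk hp
  have e : (p : ℤ) - 1 - j = ((p - 1 - j : ℕ) : ℤ) := by omega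
  have h1 : facSum L p (false, (z : ℤ), (j : ℤ)) =
      -∑ y ∈ range p, ((y : ZMod p) + 1) ^ z * (y : ZMod p) ^ (p - 1 - j) := by
    rw [facSum, ← sum_subset (f := fun y : ℕ => fac p (false, (z : ℤ), (j : ℤ)) y)
      (range_subset_range.2 hL) fun y _ hy => if_neg (by simpa using hy), Int.cast_sum,
      ← sum_neg_distrib]
    refine sum_congr rfl fun y hy => ?_
    rw [fac, if_pos (by exact_mod_cast mem_range.1 hy), if_neg (by simp), e, Int.cast_neg,
      Int.cast_mul, cast_powMod hp.pos, cast_powMod hp.pos]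
    simp [add_comm]
  have h2 : ∀ k ∈ range (z + 1), ∑ y ∈ range p,
      (y : ZMod p) ^ k * 1 ^ (z - k) * (z.choose k : ZMod p) * (y : ZMod p) ^ (p - 1 - j) =
        if k = j then -(z.choose j : ZMod p) else 0 := by
    intro k hk
    have hk' := mem_range.1 hk
    have h3 : ∀ y : ZMod p, y ^ k * 1 ^ (z - k) * (z.choose k : ZMod p) * y ^ (p - 1 - j) =
        (z.choose k : ZMod p) * y ^ (k + (p - 1 - j)) := fun y => by ring
    simp only [h3]
    rw [← mul_sum, sum_pow_Sums p (by omega)]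
    by_cases h : k = j
    · subst h
      rw [if_pos rfl, if_pos (by rw [show k + (p - 1 - k) = p - 1 by omega]), mul_neg_one]
    · rw [if_neg h, if_neg, mul_zero]
      rintro ⟨c, hc⟩
      rcases c with _ | _ | c
      · omega
      · omega
      · rw [Nat.mul_succ, Nat.mul_succ] at hc
        omega
  rw [h1]
  simp only [add_pow, sum_mul]
  rw [sum_comm, sum_congr rfl h2, sum_ite_eq']
  split_ifs with h
  · rw [neg_neg]
  · rw [neg_zero, Nat.choose_eq_zero_of_lt (by simpa using h), Nat.cast_zero]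

theorem uS_prod (a p : ℕ) (ha : 1 ≤ a) (hp : p.Prime) (h1 : 2 ^ (2 * a) < p)
    (hL : p ≤ 2 ^ (6 * a)) : ((uS a).map (facSum (6 * a) p)).prod = (UU a : ZMod p) := by
  rw [uS, UU, List.map_map, Nat.cast_list_prod, List.map_map]
  refine congrArg List.prod (List.map_congr_left fun i hi => ?_)
  have h2 : i + 1 ≤ 2 * a := by
    simp only [zs, List.mem_append, List.mem_range, List.mem_flatMap] at hi
    rcases hi with hi | ⟨_, _, hi⟩ <;> omega
  have h3 : 2 ^ (i + 1) ≤ 2 ^ (2 * a) := Nat.pow_le_pow_right two_pos h2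
  have h4 : 1 ≤ 2 ^ i := Nat.one_le_two_pow
  have h5 : 2 ^ (i + 1) = 2 * 2 ^ i := pow_succ' 2 i
  have := facSum_choose (6 * a) p (2 ^ (i + 1)) (2 ^ i) hp hL (by omega) (by omega)
  rw [Function.comp_apply, Function.comp_apply, Nat.centralBinom_eq_two_mul_choose, ← h5, ← this]
  push_cast
  rfl

end Pool.Agent.MP_7d676c_lc
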