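import Mathlib
import Pool.Agent.MP_7d676c_lc.Sums

/-! The approximation of the sum of fractions and the check modulo a prime. -/

namespace Pool.Agent.MP_7d676c_lc

open Finset

theorem ediv_bounds_Chk (x : ℤ) {m : ℤ} (hm : 0 < m) :
    0 ≤ (x : ℚ) / m - ((x / m : ℤ) : ℚ) ∧ (x : ℚ) / m - ((x / m : ℤ) : ℚ) < 1 := by
  have h1 := Int.mul_ediv_add_emod x m
  have h2 := Int.emod_nonneg x hm.ne'
  have h3 := Int.emod_lt_of_pos x hm
  have hm' : (0 : ℚ) < m := by exact_mod_cast hm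
  have h4 : (x : ℚ) / m - ((x / m : ℤ) : ℚ) = ((x % m : ℤ) : ℚ) / m := by
    have h5 : (x : ℚ) = m * ((x / m : ℤ) : ℚ) + ((x % m : ℤ) : ℚ) := by exact_mod_cast h1.symm
    field_simp
    linarith
  rw [h4]
  refine ⟨div_nonneg (by exact_mod_cast h2) hm'.le, ?_⟩
  rw [div_lt_one hm']
  exact_mod_cast h3

theorem cast_mod_Chk (a V : ℕ) : ((V : ℤ) % 2 ^ (6 * a)) = ((V % 2 ^ (6 * a) : ℕ) : ℤ) := by
  push_cast
  rfl

theorem term_approx_Chk (nm : ℤ → ℤ) (a : ℕ) (n : ℤ) (V : ℕ) :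
    0 ≤ (aa nm a n (V : ℕ) : ℚ) / ((V % 2 ^ (6 * a) : ℕ) : ℚ) -
        (vF nm a n (V : ℕ) : ℚ) / 2 ^ (wl a + 4) ∧
      (aa nm a n (V : ℕ) : ℚ) / ((V % 2 ^ (6 * a) : ℕ) : ℚ) -
        (vF nm a n (V : ℕ) : ℚ) / 2 ^ (wl a + 4) ≤ 1 / 2 ^ (wl a + 4) := by
  rw [vF, cast_mod_Chk]
  generalize V % 2 ^ (6 * a) = m
  generalize aa nm a n (V : ℕ) = x
  have hs : (0 : ℚ) < 2 ^ (wl a + 4) := by positivity
  rcases Nat.eq_zero_or_pos m with rfl | hm
  · simp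
  · obtain ⟨h1, h2⟩ := ediv_bounds_Chk (2 ^ (wl a + 4) * x) (m := (m : ℤ)) (by exact_mod_cast hm)
    have hm' : (0 : ℚ) < m := by exact_mod_cast hm
    generalize (2 ^ (wl a + 4) * x / (m : ℤ) : ℤ) = y at h1 h2 ⊢
    have h3 : (x : ℚ) / m - (y : ℚ) / 2 ^ (wl a + 4) =
        (((2 ^ (wl a + 4) * x : ℤ) : ℚ) / ((m : ℤ) : ℚ) - y) / 2 ^ (wl a + 4) := by
      push_cast
      field_simp
    rw [h3]
    exact ⟨div_nonneg h1 hs.le, div_le_div_of_nonneg_right h2.le hs.le⟩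

theorem xx_approx (nm : ℤ → ℤ) (a : ℕ) (n : ℤ) :
    0 ≤ xx nm a n - (FF nm a n : ℚ) / 2 ^ (wl a + 4) ∧
      xx nm a n - (FF nm a n : ℚ) / 2 ^ (wl a + 4) ≤ 1 / 16 := by
  have h : xx nm a n - (FF nm a n : ℚ) / 2 ^ (wl a + 4) =
      ∑ V ∈ range (2 ^ wl a), ((aa nm a n (V : ℕ) : ℚ) / ((V % 2 ^ (6 * a) : ℕ) : ℚ) -
        (vF nm a n (V : ℕ) : ℚ) / 2 ^ (wl a + 4)) := by
    rw [xx, FF, sum_sub_distrib, Int.cast_sum, sum_div]
  rw [h]
  refine ⟨sum_nonneg fun V _ => (term_approx_Chk nm a n V).1, ?_⟩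
  refine (sum_le_sum fun V _ => (term_approx_Chk nm a n V).2).trans ?_
  rw [sum_const, card_range, nsmul_eq_mul]
  push_cast
  rw [pow_add]
  field_simp
  norm_num

theorem rr_approx (a : ℕ) (F : ℤ) :
    -(1 / 2) ≤ (F : ℚ) / 2 ^ (wl a + 4) - rr a F ∧ (F : ℚ) / 2 ^ (wl a + 4) - rr a F < 1 / 2 := by
  obtain ⟨h1, h2⟩ := ediv_bounds_Chk (F + 2 ^ (wl a + 3)) (m := 2 ^ (wl a + 4)) (by positivity)
  have h3 : (((F + 2 ^ (wl a + 3) : ℤ) : ℚ)) / ((2 ^ (wl a + 4) : ℤ) : ℚ) =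
      (F : ℚ) / 2 ^ (wl a + 4) + 1 / 2 := by
    push_cast
    rw [show wl a + 4 = (wl a + 3) + 1 by ring, pow_succ (2 : ℚ) (wl a + 3)]
    field_simp
  rw [h3] at h1 h2
  rw [rr]
  constructor <;> linarith

theorem vP_nonneg_Chk (q d : ℤ) : 0 ≤ vP q d := by
  unfold vP
  split_ifs <;> norm_num

theorem Pr_eq_zero_Chk (a q : ℕ) (hq : q.Prime) : Pr a q = 0 := by
  refine sum_eq_zero fun d _ => ?_
  unfold vP
  rw [if_neg]
  rintro ⟨h1, h2, h3⟩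
  have h4 : d ∣ q := by exact_mod_cast Int.dvd_of_emod_eq_zero h3
  rcases (Nat.dvd_prime hq).1 h4 with h | h <;> omega

theorem chk_of_not_prime (nm : ℤ → ℤ) (a : ℕ) (n : ℤ) (q : ℕ) (hq : q < 2 ^ (6 * a))
    (h : ¬ (q.Prime ∧ 3 * 2 ^ (2 * a) < q)) : chk nm a n q = true := by
  rw [chk, decide_eq_true_iff]
  rintro ⟨h1, h2⟩
  exfalso
  have h3 : 3 * 2 ^ (2 * a) < q := by exact_mod_cast h2
  have h4 : 1 ≤ 2 ^ (2 * a) := Nat.one_le_two_pow
  refine h ⟨?_, h3⟩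
  by_contra hp
  obtain ⟨d, hd, hd1, hd2⟩ := Nat.exists_dvd_of_not_prime2 (by omega) hp
  have h5 := (sum_eq_zero_iff_of_nonneg fun (d : ℕ) _ => vP_nonneg_Chk q d).1 h1 d
    (mem_range.2 (hd2.trans hq))
  unfold vP at h5
  rw [if_pos] at h5
  · exact one_ne_zero h5
  · refine ⟨by omega, by omega, Int.emod_eq_zero_of_dvd ?_⟩
    exact_mod_cast hd

theorem aa_range_Chk {nm : ℤ → ℤ} {a n V : ℕ} (h : aa nm a n (V : ℕ) ≠ 0) :
    0 < V % 2 ^ (6 * a) ∧ V % 2 ^ (6 * a) ≤ 2 * n := by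
  unfold aa at h
  rw [cast_mod_Chk] at h
  by_contra hc
  apply h
  rw [if_neg]
  rintro ⟨-, h1, -, h2⟩
  apply hc
  omega

theorem chk_iff {N : ℤ} {nm : ℤ → ℤ} (hN : Res N nm) {a n : ℕ} (ha : 8 ≤ a)
    (h2 : 2 * n ≤ 3 * 2 ^ (2 * a)) {q : ℕ} (hq : q.Prime) (hq1 : 3 * 2 ^ (2 * a) < q)
    (hq2 : q < 2 ^ (6 * a)) {z : ℤ} (hz : QQ N nm a n = z) :
    chk nm a n q = true ↔ (q : ℤ) ∣ z := by
  have := Fact.mk hq
  have hq0 : 0 < q := hq.pos
  have hq3 : 2 ≤ q := hq.two_le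
  have h4 : 1 ≤ 2 ^ (2 * a) := Nat.one_le_two_pow
  have hnq : 2 * n < q := by omega
  have hUb : ((Ub a q : ℤ) : ZMod q) = (UU a : ZMod q) := by
    rw [Ub, sum_term _ _ hq0, uS_prod a q (by omega) hq (by omega) hq2.le]
  have hCb : ((Cb a n q : ℤ) : ZMod q) = (Nat.centralBinom n : ZMod q) := by
    have h5 := sum_term (6 * a) q hq0 [(false, 2 * (n : ℤ), (n : ℤ))]
    have h6 := facSum_choose (6 * a) q (2 * n) n hq hq2.le (by omega) (by omega)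
    simp only [List.length_singleton, mul_one, List.map_cons, List.map_nil, List.prod_cons,
      List.prod_nil] at h5
    rw [Cb, h5, Nat.centralBinom_eq_two_mul_choose, ← h6]
    push_cast
    rfl
  have hnm : ((nm q : ℤ) : ZMod q) = (N : ZMod q) :=
    (ZMod.intCast_eq_intCast_iff _ _ _).2 (hN q (by exact_mod_cast hq0))
  have hD : (((2 * n).factorial : ℕ) : ZMod q) ≠ 0 := by
    rw [Ne, ZMod.natCast_eq_zero_iff, hq.dvd_factorial]
    omega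
  have hcb : ((Nat.centralBinom n : ℕ) : ZMod q) ≠ 0 := by
    intro h0
    apply hD
    have h5 := Nat.choose_mul_factorial_mul_factorial (show n ≤ 2 * n by omega)
    rw [← h5, ← Nat.centralBinom_eq_two_mul_choose]
    push_cast
    rw [h0]
    ring
  -- the integer numerators over the common denominator
  set e : ℕ → ℤ := fun V => aa nm a n (V : ℕ) * (((2 * n).factorial / (V % 2 ^ (6 * a)) : ℕ) : ℤ)
    with he
  have he1 : ∀ V : ℕ, (aa nm a n (V : ℕ) : ℚ) / ((V % 2 ^ (6 * a) : ℕ) : ℚ) *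
      ((2 * n).factorial : ℕ) = (e V : ℚ) := by
    intro V
    by_cases h0 : aa nm a n (V : ℕ) = 0
    · simp [he, h0]
    · obtain ⟨h5, h6⟩ := aa_range_Chk h0
      have h7 := Nat.dvd_factorial h5 h6
      have h8 : (((V % 2 ^ (6 * a) : ℕ) : ℚ)) ≠ 0 := by exact_mod_cast h5.ne'
      simp only [he]
      rw [Int.cast_mul, Int.cast_natCast, Nat.cast_div h7 h8]
      ring
  have he2 : ∀ V : ℕ, ((e V : ℤ) : ZMod q) =
      ((2 * n).factorial : ℕ) * ((vX nm a n q (V : ℕ) : ℤ) : ZMod q) := by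
    intro V
    have h9 : ((q : ℤ) - 2) = ((q - 2 : ℕ) : ℤ) := by omega
    rw [vX, cast_rd hq0, Int.cast_mul (aa nm a n (V : ℕ)) (powMod _ _ _), h9, cast_powMod hq0,
      cast_mod_Chk]
    by_cases h0 : aa nm a n (V : ℕ) = 0
    · simp [he, h0]
    · obtain ⟨h5, h6⟩ := aa_range_Chk h0
      have h7 := Nat.dvd_factorial h5 h6
      simp only [he]
      generalize V % 2 ^ (6 * a) = m at h5 h6 h7 ⊢
      have h8 : ((m : ℕ) : ZMod q) ≠ 0 := by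
        rw [Ne, ZMod.natCast_eq_zero_iff]
        exact Nat.not_dvd_of_pos_of_lt h5 (by omega)
      have h10 := ZMod.pow_card_sub_one_eq_one h8
      rw [show q - 1 = (q - 2) + 1 by omega, pow_succ] at h10
      obtain ⟨c, hc⟩ := h7
      rw [hc, Nat.mul_div_cancel_left _ h5]
      push_cast
      linear_combination (-(aa nm a n (V : ℕ) : ZMod q) * c) * h10
  have hxx : xx nm a n * ((2 * n).factorial : ℕ) = ((∑ V ∈ range (2 ^ wl a), e V : ℤ) : ℚ) := by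
    rw [xx, sum_mul, Int.cast_sum]
    exact sum_congr rfl fun V _ => he1 V
  have hXX : ((∑ V ∈ range (2 ^ wl a), e V : ℤ) : ZMod q) =
      ((2 * n).factorial : ℕ) * ((XX nm a n q : ℤ) : ZMod q) := by
    rw [XX, Int.cast_sum, Int.cast_sum, mul_sum]
    exact sum_congr rfl fun V _ => he2 V
  have hcb0 : ((Nat.centralBinom n : ℕ) : ℚ) ≠ 0 := by
    exact_mod_cast (Nat.centralBinom_pos n).ne'
  generalize (∑ V ∈ range (2 ^ wl a), e V : ℤ) = E at hxx hXX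
  have hint : z * (Nat.centralBinom n : ℕ) * ((2 * n).factorial : ℕ) =
      (2 * N - 1) * KK a * UU a * ((2 * n).factorial : ℕ) - (Nat.centralBinom n : ℕ) * E +
        rr a (FF nm a n) * (Nat.centralBinom n : ℕ) * ((2 * n).factorial : ℕ) := by
    have h5 : ((z * (Nat.centralBinom n : ℕ) * ((2 * n).factorial : ℕ) : ℤ) : ℚ) =
        (((2 * N - 1) * KK a * UU a * ((2 * n).factorial : ℕ) - (Nat.centralBinom n : ℕ) * E +
        rr a (FF nm a n) * (Nat.centralBinom n : ℕ) * ((2 * n).factorial : ℕ) : ℤ) : ℚ) := by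
      rw [QQ, th] at hz
      push_cast at hz hxx ⊢
      rw [← hz, ← hxx]
      field_simp
    exact_mod_cast h5
  have hmod := congrArg (Int.cast : ℤ → ZMod q) hint
  push_cast at hmod
  rw [hXX] at hmod
  have hkey : (z : ZMod q) * (Nat.centralBinom n : ℕ) =
      (2 * (N : ZMod q) - 1) * (KK a : ℤ) * (UU a : ℕ) +
        (Nat.centralBinom n : ℕ) * ((rr a (FF nm a n) : ℤ) - (XX nm a n q : ℤ)) := by
    apply mul_right_cancel₀ hD
    linear_combination hmod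
  rw [chk, decide_eq_true_iff, ← ZMod.intCast_zmod_eq_zero_iff_dvd]
  have hcond : Pr a q = 0 ∧ 3 * 2 ^ (2 * a) < (q : ℤ) :=
    ⟨Pr_eq_zero_Chk a q hq, by exact_mod_cast hq1⟩
  rw [imp_iff_right hcond, ← Int.dvd_iff_emod_eq_zero, ← ZMod.intCast_zmod_eq_zero_iff_dvd]
  push_cast
  rw [hnm, hUb, hCb, ← hkey, mul_eq_zero, or_iff_left hcb]

end Pool.Agent.MP_7d676c_lc
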