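import Mathlib
import Pool.Agent.MP_7d676c_lc.Sums

/-! The indicator of primes among odd numbers as a product of sums. -/

namespace Pool.Agent.MP_7d676c_lc

open Finset

theorem sum_fac_Ind {L m : ℕ} (hL : m ≤ 2 ^ L) (s : Spec) :
    ∑ y ∈ range (2 ^ L), fac m s (y : ℕ) = ∑ y ∈ range m, fac m s (y : ℕ) := by
  refine (sum_subset (range_subset_range.2 hL) fun y _ hy => ?_).symm
  rw [fac, if_neg]
  rw [mem_range] at hy
  exact_mod_cast hy

theorem sum_zmod_Ind {M : Type*} [AddCommMonoid M] (m : ℕ) [NeZero m] (f : ZMod m → M) :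
    ∑ y ∈ range m, f (y : ZMod m) = ∑ x : ZMod m, f x := by
  refine sum_nbij' (fun y => (y : ZMod m)) ZMod.val (fun _ _ => mem_univ _)
    (fun x _ => mem_range.2 (ZMod.val_lt x)) (fun y hy => ZMod.val_cast_of_lt (mem_range.1 hy))
    (fun x _ => ZMod.natCast_zmod_val x) fun _ _ => rfl

theorem facSum_true_Ind {L m : ℕ} [NeZero m] (h1 : 1 < m) (hL : m ≤ 2 ^ L) (c : ℤ) :
    facSum L m (true, c, 0) =
      (c : ZMod m) - ((univ.filter fun x : ZMod m => x * x = 1).card : ZMod m) := by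
  have e : ∀ y ∈ range m, fac m (true, c, 0) (y : ℕ) =
      (if y = 0 then c else 0) - (if (y : ZMod m) * y = 1 then 1 else 0) := by
    intro y hy
    have hy' : ((y : ℕ) : ℤ) < m := by exact_mod_cast mem_range.1 hy
    have h2 : (y : ℤ) * y % m = 1 ↔ (y : ZMod m) * y = 1 := by
      have h3 := ZMod.intCast_eq_intCast_iff' ((y : ℤ) * y) 1 m
      rw [Int.emod_eq_of_lt (a := 1) zero_le_one (by exact_mod_cast h1)] at h3
      rw [← h3]
      push_cast
      rfl
    rw [fac, if_pos hy', if_pos rfl]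
    simp only [h2, Nat.cast_eq_zero]
  rw [facSum, sum_fac_Ind hL, sum_congr rfl e, sum_sub_distrib, sum_ite_eq',
    if_pos (mem_range.2 (by omega)),
    sum_zmod_Ind m fun x => if x * x = 1 then (1 : ℤ) else 0, sum_boole]
  push_cast
  rfl

theorem card_pow_Ind (m : ℕ) [NeZero m] :
    ∃ j, (univ.filter fun x : ZMod m => x * x = 1).card = 2 ^ j := by
  let H : Subgroup (ZMod m)ˣ := (powMonoidHom 2 : (ZMod m)ˣ →* (ZMod m)ˣ).ker
  have hH : IsPGroup 2 H := fun u => ⟨1, Subtype.ext (show u.1 ^ 2 = 1 from u.2)⟩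
  obtain ⟨j, hj⟩ := IsPGroup.iff_card.1 hH
  let E : H ≃ {x : ZMod m // x * x = 1} :=
    { toFun := fun u => ⟨u.1.1, by
        have h : u.1 ^ 2 = 1 := u.2
        rw [← Units.val_mul, ← sq, h, Units.val_one]⟩
      invFun := fun x => ⟨⟨x.1, x.1, x.2, x.2⟩, Units.ext (by
        change x.1 ^ 2 = 1
        rw [sq, x.2])⟩
      left_inv := fun u => Subtype.ext (Units.ext rfl)
      right_inv := fun x => rfl }
  refine ⟨j, ?_⟩
  rw [← hj, Nat.card_congr E, Nat.card_eq_fintype_card, Fintype.card_subtype]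

theorem card_big_Ind {b c : ℕ} [NeZero (b * c)] (hb : 2 < b) (hc : 2 < c) (h : b.Coprime c) :
    2 < (univ.filter fun x : ZMod (b * c) => x * x = 1).card := by
  have : Fact (2 < b) := ⟨hb⟩
  have : Fact (2 < c) := ⟨hc⟩
  let E := (ZMod.chineseRemainder h).symm
  have hm : ∀ z : ZMod b × ZMod c, z * z = 1 →
      E z ∈ univ.filter fun x : ZMod (b * c) => x * x = 1 := fun z hz => by
    rw [mem_filter, ← map_mul, hz, map_one]
    exact ⟨mem_univ _, rfl⟩
  refine two_lt_card_iff.2 ⟨E (1, 1), E (1, -1), E (-1, -1), hm _ (by ext <;> simp),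
    hm _ (by ext <;> simp), hm _ (by ext <;> simp), ?_, ?_, ?_⟩
  · exact fun e => ZMod.neg_one_ne_one (congrArg Prod.snd (E.injective e)).symm
  · exact fun e => ZMod.neg_one_ne_one (congrArg Prod.snd (E.injective e)).symm
  · exact fun e => ZMod.neg_one_ne_one (congrArg Prod.fst (E.injective e)).symm

theorem dvd_sum_Ind {p c : ℕ} (hp : 0 < p) (hc : 0 < c) (h : p ∣ c) :
    (p : ℤ) ∣ ∑ y ∈ range (p * c), fac (p * c : ℕ) (false, 0, 0) (y : ℕ) := by
  have hm : (0 : ℤ) < (p * c : ℕ) := by exact_mod_cast Nat.mul_pos hp hc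
  have hr : ∀ x : ℤ, ((rd (p * c : ℕ) x : ℤ) : ZMod p) = x := fun x =>
    (ZMod.intCast_eq_intCast_iff _ _ _).2
      ((rd_modEq hm x).of_dvd (by push_cast; exact dvd_mul_right _ _))
  rw [← ZMod.intCast_zmod_eq_zero_iff_dvd, Int.cast_sum]
  have e : ∀ y ∈ range (p * c), ((fac (p * c : ℕ) (false, 0, 0) (y : ℕ) : ℤ) : ZMod p) =
      -((y % p : ℕ) : ZMod p) ^ (((p * c : ℕ) : ℤ) - 1 - 0).toNat := by
    intro y hy
    have hy' : ((y : ℕ) : ℤ) < (p * c : ℕ) := by exact_mod_cast mem_range.1 hy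
    rw [fac, if_pos hy', if_neg Bool.false_ne_true, Int.cast_neg, Int.cast_mul, powMod, powMod,
      hr, hr, ZMod.natCast_mod]
    simp
  rw [sum_congr rfl e, sum_range_mul p c fun y _ =>
    -((y : ℕ) : ZMod p) ^ (((p * c : ℕ) : ℤ) - 1 - 0).toNat]
  refine sum_eq_zero fun y _ => ?_
  rw [sum_const, card_range, nsmul_eq_mul, (ZMod.natCast_eq_zero_iff c p).2 h, zero_mul]

theorem ind_prime (a p : ℕ) (hp : p.Prime) (h2 : 2 < p) (hL : p ≤ 2 ^ (6 * a)) :
    ((indS a).map (facSum (6 * a) p)).prod = (KK a : ZMod p) := by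
  have : Fact p.Prime := ⟨hp⟩
  have : Fact (2 < p) := ⟨h2⟩
  have hI : (univ.filter fun x : ZMod p => x * x = 1).card = 2 := by
    rw [← card_pair (ZMod.neg_one_ne_one (n := p)).symm]
    congr 1
    ext x
    simp [mul_self_eq_one_iff]
  have h0 : facSum (6 * a) p (false, 0, 0) = 1 := by
    simpa using facSum_choose (6 * a) p 0 0 hp hL (by omega) (by omega)
  rw [indS, List.map_append, List.prod_append, List.map_replicate, h0, List.prod_replicate,
    one_pow, mul_one, KK, Int.cast_list_prod, List.map_map, List.map_map]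
  congr 1
  refine List.map_congr_left fun j _ => ?_
  simp only [Function.comp_apply]
  rw [facSum_true_Ind hp.one_lt hL, hI]
  push_cast
  rfl

theorem ind_comp (a m : ℕ) (hodd : m % 2 = 1) (h1 : 1 < m) (hL : m < 2 ^ (6 * a))
    (hm : ¬ m.Prime) : ((indS a).map (facSum (6 * a) m)).prod = 0 := by
  have : NeZero m := ⟨by omega⟩
  have hp : m.minFac.Prime := Nat.minFac_prime (by omega)
  have hpm : m.minFac ∣ m := Nat.minFac_dvd m
  generalize m.minFac = p at hp hpm
  obtain ⟨k, c, hc, e⟩ := Nat.exists_eq_pow_mul_and_not_dvd (n := m) (by omega) p hp.ne_one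
  have hk : k ≠ 0 := by
    rintro rfl
    rw [pow_zero, one_mul] at e
    exact hc (e ▸ hpm)
  have odd : ∀ d, d ∣ m → d ≠ 1 → 2 < d := by
    intro d hd hd1
    have h0 : d ≠ 0 := by
      rintro rfl
      have := Nat.eq_zero_of_zero_dvd hd
      omega
    have h2 : d ≠ 2 := by
      rintro rfl
      omega
    omega
  rw [indS, List.map_append, List.prod_append]
  by_cases hc1 : c = 1
  · subst hc1
    rw [mul_one] at e
    have hk1 : k ≠ 1 := by
      rintro rfl
      rw [pow_one] at e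
      exact hm (e ▸ hp)
    have hk6 : k < 6 * a := by
      refine (Nat.pow_lt_pow_iff_right one_lt_two).1 (lt_of_le_of_lt ?_ hL)
      rw [e]
      exact Nat.pow_le_pow_left hp.two_le k
    have e' : m = p * p ^ (k - 1) := by
      rw [← pow_succ', Nat.sub_add_cancel (by omega), e]
    have hd := dvd_sum_Ind hp.pos (pow_pos hp.pos (k - 1)) (dvd_pow_self p (by omega))
    rw [← e'] at hd
    rw [List.map_replicate, List.prod_replicate, facSum, sum_fac_Ind hL.le, ← Int.cast_pow,
      (ZMod.intCast_zmod_eq_zero_iff_dvd _ m).2, mul_zero]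
    refine dvd_trans ?_ (pow_dvd_pow_of_dvd hd _)
    rw [e]
    push_cast
    exact pow_dvd_pow _ hk6.le
  · obtain ⟨j, hj⟩ := card_pow_Ind m
    have hbig : 2 < (univ.filter fun x : ZMod m => x * x = 1).card := by
      have hb : 2 < p ^ k := odd _ (e ▸ dvd_mul_right _ _)
        (Nat.one_lt_pow hk hp.one_lt).ne'
      have hc2 : 2 < c := odd _ (e ▸ dvd_mul_left _ _) hc1
      subst e
      exact card_big_Ind hb hc2 (((Nat.Prime.coprime_iff_not_dvd hp).2 hc).pow_left k)
    have hle : 2 ^ j ≤ m := by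
      rw [← hj]
      exact (card_le_univ _).trans (ZMod.card m).le
    have hj6 : j < 6 * a := (Nat.pow_lt_pow_iff_right one_lt_two).1 (hle.trans_lt hL)
    have hj2 : 1 < j := by
      rw [hj] at hbig
      exact (Nat.pow_lt_pow_iff_right one_lt_two).1 (by simpa using hbig)
    rw [List.prod_eq_zero, zero_mul]
    rw [List.map_map, List.mem_map]
    refine ⟨j - 2, List.mem_range.2 (by omega), ?_⟩
    simp only [Function.comp_apply]
    rw [facSum_true_Ind h1 hL.le, hj, Nat.sub_add_cancel hj2]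
    push_cast
    exact sub_self _

end Pool.Agent.MP_7d676c_lc
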