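import Mathlib
import Pool.Agent.MP_7d676c_lc.Ind
import Pool.Agent.MP_7d676c_lc.Binom

/-! The decomposition into fractions with prime denominators. -/

namespace Pool.Agent.MP_7d676c_lc

open Finset

/-- Fractions with distinct prime denominators. -/
theorem frac_Frac (P : Finset ℕ) (hP : ∀ p ∈ P, p.Prime) (c : ℕ → ℤ) (T : ℤ)
    (h : ∀ p ∈ P, (p : ℤ) ∣ T - c p * ∏ q ∈ P.erase p, (q : ℤ)) :
    ∃ z : ℤ, (T : ℚ) / (∏ p ∈ P, (p : ℚ)) - ∑ p ∈ P, (c p : ℚ) / p = z := by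
  have hd : (∏ p ∈ P, (p : ℤ)) ∣ T - ∑ p ∈ P, c p * ∏ q ∈ P.erase p, (q : ℤ) := by
    refine Finset.prod_dvd_of_coprime ?_ fun p hp => ?_
    · intro p hp q hq hpq
      exact Nat.isCoprime_iff_coprime.2 ((Nat.coprime_primes (hP p hp) (hP q hq)).2 hpq)
    · rw [← add_sum_erase _ _ hp, ← sub_sub]
      refine dvd_sub (h p hp) (dvd_sum fun q hq => Dvd.dvd.mul_left ?_ _)
      exact dvd_prod_of_mem _ (mem_erase.2 ⟨(mem_erase.1 hq).1.symm, hp⟩)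
  obtain ⟨z, hz⟩ := hd
  refine ⟨z, ?_⟩
  have hA : (∏ p ∈ P, (p : ℚ)) ≠ 0 :=
    prod_ne_zero_iff.2 fun p hp => by exact_mod_cast (hP p hp).ne_zero
  have h2 : ∑ p ∈ P, (c p : ℚ) / p =
      (∑ p ∈ P, (c p : ℚ) * ∏ q ∈ P.erase p, (q : ℚ)) / ∏ p ∈ P, (p : ℚ) := by
    rw [sum_div]
    refine sum_congr rfl fun p hp => ?_
    have hp0 : (p : ℚ) ≠ 0 := by exact_mod_cast (hP p hp).ne_zero
    rw [div_eq_div_iff hp0 hA, ← mul_prod_erase _ _ hp]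
    ring
  have h3 := congrArg (fun x : ℤ => (x : ℚ)) hz
  push_cast at h3
  rw [h2, ← sub_div, h3, mul_div_cancel_left₀ _ hA]

/-- The numerators as a function of the modulus and of the remaining digits. -/
def hh_Frac (nm : ℤ → ℤ) (a n m W : ℕ) : ℤ :=
  if (m : ℤ) % 2 = 1 ∧ (n : ℤ) < m ∧ (2 : ℤ) ^ (2 * a) < m ∧ (m : ℤ) ≤ 2 * n then
    rd m ((2 * nm m - 1) * n * (if (n : ℤ) % 2 = 0 then -1 else 1) *
      term (6 * a) m (aS a n m) W)
  else 0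

/-- The total numerator for the modulus `m`. -/
def cc_Frac (nm : ℤ → ℤ) (a n m : ℕ) : ℤ :=
  ∑ W ∈ range (2 ^ (6 * a * ((uS a).length + (indS a).length + 1))), hh_Frac nm a n m W

theorem aa_Frac (nm : ℤ → ℤ) (a n V : ℕ) :
    aa nm a n V = hh_Frac nm a n (V % 2 ^ (6 * a)) (V / 2 ^ (6 * a)) := by
  unfold aa hh_Frac
  push_cast
  rfl

theorem xx_Frac (nm : ℤ → ℤ) (a n : ℕ) :
    xx nm a n = ∑ m ∈ range (2 ^ (6 * a)), (cc_Frac nm a n m : ℚ) / m := by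
  have e : wl a = 6 * a + 6 * a * ((uS a).length + (indS a).length + 1) := by
    rw [wl]; ring
  rw [xx, e, pow_add]
  simp only [aa_Frac]
  rw [sum_range_mul (2 ^ (6 * a)) _ fun y w => (hh_Frac nm a n y w : ℚ) / (y : ℚ)]
  refine sum_congr rfl fun m _ => ?_
  rw [cc_Frac, Int.cast_sum, sum_div]

theorem cc_cast_Frac {N : ℤ} {nm : ℤ → ℤ} (hN : Res N nm) (a n m : ℕ)
    (h : (m : ℤ) % 2 = 1 ∧ (n : ℤ) < m ∧ (2 : ℤ) ^ (2 * a) < m ∧ (m : ℤ) ≤ 2 * n) :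
    (cc_Frac nm a n m : ZMod m) = (2 * (N : ZMod m) - 1) * n * (-1) ^ (n + 1) *
      (facSum (6 * a) m (false, (n : ℤ), 2 * (n : ℤ) - m) *
        (((uS a).map (facSum (6 * a) m)).prod * ((indS a).map (facSum (6 * a) m)).prod)) := by
  have hm : 0 < m := by omega
  have h1 := sum_term (6 * a) m hm (aS a n m)
  rw [length_aS, Int.cast_sum] at h1
  have h2 : ((nm m : ℤ) : ZMod m) = N :=
    (ZMod.intCast_eq_intCast_iff _ _ _).2 (hN m (by exact_mod_cast hm))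
  have h3 : (((if (n : ℤ) % 2 = 0 then -1 else 1 : ℤ)) : ZMod m) = (-1) ^ (n + 1) := by
    split_ifs with h4
    · rw [Odd.neg_one_pow (Nat.odd_iff.2 (by omega))]; simp
    · rw [Even.neg_one_pow (Nat.even_iff.2 (by omega))]; simp
  rw [aS, List.map_cons, List.prod_cons, List.map_append, List.prod_append] at h1
  rw [← h1, cc_Frac, Int.cast_sum, mul_sum]
  refine sum_congr rfl fun W _ => ?_
  rw [hh_Frac, if_pos h, cast_rd hm, Int.cast_mul, Int.cast_mul, Int.cast_mul, h3, Int.cast_sub,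
    Int.cast_mul, h2, aS]
  simp

theorem cc_int_Frac {N : ℤ} {nm : ℤ → ℤ} (hN : Res N nm) (a n m : ℕ) (hm : m < 2 ^ (6 * a))
    (h : m ∉ PS a n) : ∃ z : ℤ, (cc_Frac nm a n m : ℚ) / m = z := by
  by_cases hc : (m : ℤ) % 2 = 1 ∧ (n : ℤ) < m ∧ (2 : ℤ) ^ (2 * a) < m ∧ (m : ℤ) ≤ 2 * n
  · have h1 := cc_cast_Frac hN a n m hc
    obtain ⟨c1, c2, c3, c4⟩ := hc
    have c5 : 2 ^ (2 * a) < m := by exact_mod_cast c3
    have c6 : 1 ≤ 2 ^ (2 * a) := Nat.one_le_two_pow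
    have hp : ¬ m.Prime := fun hp =>
      h (mem_filter.2 ⟨mem_Ioc.2 ⟨max_lt (by omega) c5, by omega⟩, hp⟩)
    rw [ind_comp a m (by omega) (by omega) hm hp, mul_zero, mul_zero, mul_zero,
      ZMod.intCast_zmod_eq_zero_iff_dvd] at h1
    obtain ⟨z, hz⟩ := h1
    have h0 : (m : ℚ) ≠ 0 := by exact_mod_cast (by omega : m ≠ 0)
    exact ⟨z, by rw [hz]; push_cast; rw [mul_div_cancel_left₀ _ h0]⟩
  · exact ⟨0, by simp only [cc_Frac, hh_Frac, if_neg hc]; simp⟩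

theorem QQ_int {N : ℤ} {nm : ℤ → ℤ} (hN : Res N nm) {a n : ℕ} (ha : 8 ≤ a)
    (h1 : 2 ^ (2 * a) ≤ 2 * n) (h2 : 2 * n ≤ 3 * 2 ^ (2 * a)) :
    ∃ z : ℤ, QQ N nm a n = z := by
  have b1 : 2 ^ 2 ≤ 2 ^ (2 * a) := Nat.pow_le_pow_right two_pos (by omega)
  have b2 : 2 ^ (2 * a + 2) ≤ 2 ^ (6 * a) := Nat.pow_le_pow_right two_pos (by omega)
  rw [pow_add] at b2
  have hPS : ∀ p ∈ PS a n, p.Prime ∧ n < p ∧ 2 ^ (2 * a) < p ∧ p ≤ 2 * n := fun p hp => by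
    obtain ⟨h3, h4⟩ := mem_filter.1 hp
    obtain ⟨h5, h6⟩ := mem_Ioc.1 h3
    exact ⟨h4, (max_lt_iff.1 h5).1, (max_lt_iff.1 h5).2, h6⟩
  have hsub : PS a n ⊆ range (2 ^ (6 * a)) := fun p hp => by
    have := hPS p hp
    exact mem_range.2 (by omega)
  obtain ⟨G, hG⟩ := cb_dvd a n h1 h2
  obtain ⟨z1, hz1⟩ := frac_Frac (PS a n) (fun p hp => (hPS p hp).1) (cc_Frac nm a n)
    ((2 * N - 1) * KK a * G) fun p hp => by
      obtain ⟨hp1, hp2, hp3, hp4⟩ := hPS p hp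
      obtain ⟨c, hc1, hc2⟩ := cb_inv n p hp1 hp2 hp4
      have hodd : p % 2 = 1 := hp1.eq_two_or_odd.resolve_left (by omega)
      have e1 := cc_cast_Frac hN a n p ⟨by omega, by omega, by exact_mod_cast hp3, by omega⟩
      have e2 : 2 * (n : ℤ) - p = ((2 * n - p : ℕ) : ℤ) := by omega
      rw [e2, facSum_choose _ p n _ hp1 (by omega) (by omega) (by omega),
        uS_prod a p (by omega) hp1 hp3 (by omega), ind_prime a p hp1 (by omega) (by omega)] at e1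
      have e3 : UU a * ∏ q ∈ (PS a n).erase p, q = c * G := by
        refine Nat.eq_of_mul_eq_mul_left hp1.pos ?_
        rw [← mul_assoc p c, ← hc1, ← hG, ← mul_prod_erase _ _ hp]
        ring
      have e4 := congrArg (fun x : ℕ => (x : ZMod p)) e3
      rw [← ZMod.intCast_zmod_eq_zero_iff_dvd]
      push_cast at e4 ⊢
      rw [e1]
      linear_combination (-(2 * (N : ZMod p) - 1) * (KK a : ZMod p) * G) * hc2 -
        (2 * (N : ZMod p) - 1) * (KK a : ZMod p) *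
          ((-1) ^ (n + 1) * (n : ZMod p) * (n.choose (2 * n - p) : ZMod p)) * e4
  have h3 : ∃ z : ℤ, ∑ m ∈ range (2 ^ (6 * a)) \ PS a n, (cc_Frac nm a n m : ℚ) / m = z := by
    refine sum_induction _ (fun x : ℚ => ∃ z : ℤ, x = z) ?_ ⟨0, by simp⟩ fun m hm => ?_
    · rintro _ _ ⟨x, rfl⟩ ⟨y, rfl⟩
      exact ⟨x + y, by simp⟩
    · exact cc_int_Frac hN a n m (mem_range.1 (mem_sdiff.1 hm).1) (mem_sdiff.1 hm).2
  obtain ⟨z2, hz2⟩ := h3
  have h4 : th N a n = (((2 * N - 1) * KK a * G : ℤ) : ℚ) / ∏ p ∈ PS a n, (p : ℚ) := by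
    have c1 : (Nat.centralBinom n : ℚ) ≠ 0 := by exact_mod_cast (Nat.centralBinom_pos n).ne'
    have c2 : (∏ p ∈ PS a n, (p : ℚ)) ≠ 0 :=
      prod_ne_zero_iff.2 fun p hp => by exact_mod_cast (hPS p hp).1.ne_zero
    have c3 := congrArg (fun x : ℕ => (x : ℚ)) hG
    push_cast at c3
    rw [th, div_eq_div_iff c1 c2]
    push_cast
    linear_combination ((2 * (N : ℚ) - 1) * (KK a : ℚ)) * c3
  refine ⟨z1 - z2 + rr a (FF nm a n), ?_⟩
  rw [QQ, xx_Frac, ← sum_sdiff hsub, hz2, h4]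
  push_cast at hz1 ⊢
  linear_combination hz1

end Pool.Agent.MP_7d676c_lc
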