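import Mathlib
import Pool.Agent.MP_7d676c_lc.Arith

/-! Functions computable in polynomial time with an oracle: closure properties. -/

namespace Pool.Agent.MP_7d676c_lc

open Pool.Agent.MP_2e8011_lc Pool.Agent.MP_a6d740_lc

section answers

variable {Y Z : Type} {A : List Bool → Bool}

theorem answers_succ (Q : Y × List Bool → List Bool) (y : Y) (n : ℕ) :
    answers A Q y (n + 1) = answers A Q y n ++ [A (Q (y, answers A Q y n))] := rfl

@[simp] theorem length_answers (Q : Y × List Bool → List Bool) (y : Y) (n : ℕ) :
    (answers A Q y n).length = n := by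
  induction n with
  | zero => rfl
  | succ n ih => simp [answers_succ, ih]

theorem take_answers (Q : Y × List Bool → List Bool) (y : Y) {m n : ℕ} (h : m ≤ n) :
    (answers A Q y n).take m = answers A Q y m := by
  induction n, h using Nat.le_induction with
  | base => exact List.take_of_length_le (by simp)
  | succ n h ih => rw [answers_succ, List.take_append_of_le_length (by simpa using h), ih]

theorem answers_pre (Q : Y × List Bool → List Bool) (g : Z → Y) (z : Z) (n : ℕ) :
    answers A (fun p : Z × List Bool => Q (g p.1, p.2)) z n = answers A Q (g z) n := by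
  induction n with
  | zero => rfl
  | succ n ih => rw [answers_succ, answers_succ, ih]

end answers

theorem sz_bits (l : List Bool) : sz l = 3 * l.length := by
  induction l with
  | nil => rfl
  | cons b l ih => simp [ih]; omega

variable {Y Z β δ ε : Type} [Enc Y] [Enc Z] [Enc β] [Enc δ] [Enc ε] {A : List Bool → Bool}

/-- Computable in polynomial time with the oracle `A`. -/
def OC (A : List Bool → Bool) (f : Y → δ) : Prop :=
  ∃ (Q : Y × List Bool → List Bool) (D : Y × List Bool → δ) (p : Polynomial ℕ), PT Q ∧ PT D ∧
    ∀ y n, p.eval (sz y) ≤ n → D (y, answers A Q y n) = f y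

theorem OC.of_pb {f : Y → δ} (Q : Y × List Bool → List Bool) (D : Y × List Bool → δ)
    (t : Y → ℕ) (hQ : PT Q) (hD : PT D) (ht : PB t)
    (h : ∀ y n, t y ≤ n → D (y, answers A Q y n) = f y) : OC A f := by
  obtain ⟨p, hp⟩ := ht
  exact ⟨Q, D, p, hQ, hD, fun y n hn => h y n ((hp y).trans hn)⟩

theorem OC.congr {f g : Y → δ} (hf : OC A f) (e : ∀ y, f y = g y) : OC A g := by
  rwa [← funext e]

theorem OC.pure {f : Y → δ} (hf : PT f) : OC A f :=
  ⟨fun _ => [], fun p => f p.1, 0, by fun_prop, by fun_prop, fun _ _ _ => rfl⟩

theorem OC.query {q : Y → List Bool} (hq : PT q) : OC A (fun y => A (q y)) := by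
  refine ⟨fun p => q p.1, fun p => (p.2.take 1).headD false, 1, by fun_prop, by fun_prop,
    fun y n hn => ?_⟩
  simp only
  rw [take_answers _ _ (by simpa using hn)]
  rfl

theorem OC.pre {f : Y → δ} (hf : OC A f) {g : Z → Y} (hg : PT g) : OC A (fun z => f (g z)) := by
  obtain ⟨Q, D, p, hQ, hD, h⟩ := hf
  refine OC.of_pb (fun p => Q (g p.1, p.2)) (fun p => D (g p.1, p.2)) (fun z => p.eval (sz (g z)))
    (by fun_prop) (by fun_prop) (PB.eval p hg.pb_sz) (fun z n hn => ?_)
  rw [answers_pre]
  exact h _ _ hn

theorem OC.pb_sz {f : Y → δ} (hf : OC A f) : PB (fun y => sz (f y)) := by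
  obtain ⟨Q, D, p, -, hD, h⟩ := hf
  obtain ⟨q, hq⟩ := hD.pb_sz
  refine (PB.eval q ((((PB.const 2).mul PB.sz).add (PB.const 1)).add
    ((PB.const 3).mul (PB.eval p PB.sz)))).mono (fun y => ?_)
  rw [← h y _ le_rfl]
  refine (hq _).trans (le_of_eq ?_)
  rw [sz_prod, sz_bits, length_answers]

theorem OC.bind {u : Y → δ} {v : Y × δ → ε} (hu : OC A u) (hv : OC A v) :
    OC A (fun y => v (y, u y)) := by
  have hs := hu.pb_sz
  obtain ⟨Q, D, p, hQ, hD, h⟩ := hu
  obtain ⟨Q', D', p', hQ', hD', h'⟩ := hv
  let T : Y → ℕ := fun y => p.eval (sz y)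
  have hT : PT T := PT.eval p PT.id.sz
  let R : Y × List Bool → List Bool := fun x =>
    if x.2.length < T x.1 then Q x else Q' ((x.1, D (x.1, x.2.take (T x.1))), x.2.drop (T x.1))
  have h1 : ∀ y k, k ≤ T y → answers A R y k = answers A Q y k := by
    intro y k hk
    induction k with
    | zero => rfl
    | succ k ih =>
      rw [answers_succ, answers_succ, ih (by omega)]
      simp only [R, length_answers]
      rw [if_pos (by omega)]
  have h2 : ∀ y k, answers A R y (T y + k) =
      answers A Q y (T y) ++ answers A Q' (y, u y) k := by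
    intro y k
    induction k with
    | zero => simp [h1 y _ le_rfl, answers]
    | succ k ih =>
      rw [← add_assoc, answers_succ, answers_succ, ih, List.append_assoc]
      simp only [R, List.length_append, length_answers]
      rw [if_neg (by omega), List.take_left' (by simp), List.drop_left' (by simp), h y _ le_rfl]
  refine OC.of_pb R (fun x => D' ((x.1, D (x.1, x.2.take (T x.1))), x.2.drop (T x.1)))
    (fun y => T y + p'.eval (2 * sz y + 1 + sz (u y))) (by fun_prop) (by fun_prop)
    (hT.pb.add (PB.eval p' ((((PB.const 2).mul PB.sz).add (PB.const 1)).add hs)))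
    (fun y n hn => ?_)
  obtain ⟨k, rfl⟩ := Nat.exists_eq_add_of_le ((Nat.le_add_right _ _).trans hn)
  simp only [h2]
  rw [List.take_left' (by simp), List.drop_left' (by simp), h y _ le_rfl]
  exact h' _ _ (by rw [sz_prod]; omega)

theorem OC.post {u : Y → δ} (hu : OC A u) {v : Y × δ → ε} (hv : PT v) :
    OC A (fun y => v (y, u y)) := hu.bind (OC.pure hv)

theorem OC.comp {g : δ → ε} {f : Y → δ} (hg : OC A g) (hf : OC A f) : OC A (fun y => g (f y)) :=
  hf.bind (v := fun p => g p.2) (hg.pre (by fun_prop))

theorem OC.pair {f : Y → δ} {g : Y → ε} (hf : OC A f) (hg : OC A g) :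
    OC A (fun y => (f y, g y)) :=
  hf.bind (v := fun p => (p.2, g p.1))
    ((hg.pre (g := fun p : Y × δ => p.1) (by fun_prop)).post
      (v := fun q : (Y × δ) × ε => (q.1.2, q.2)) (by fun_prop))

theorem OC.iter {g : Y → δ → δ} (hg : OC A (fun p : Y × δ => g p.1 p.2)) {n : Y → ℕ} (hn : PT n)
    {s : Y → δ} (hs : PT s) {B : Y → ℕ} (hB : PB B)
    (hb : ∀ y, ∀ i ≤ n y, sz ((g y)^[i] (s y)) ≤ B y) :
    OC A (fun y => (g y)^[n y] (s y)) := by
  obtain ⟨Q, D, p, hQ, hD, h⟩ := hg
  obtain ⟨q, hq⟩ := hB
  let C : Y → ℕ := fun y => q.eval (sz y)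
  have hC : PT C := PT.eval q PT.id.sz
  let T : Y → ℕ := fun y => p.eval (2 * sz y + 1 + C y) + 1
  have hT : PT T := by
    have : PT (fun y : Y => sz y) := PT.id.sz
    fun_prop
  have hT0 : ∀ y, 0 < T y := fun y => Nat.succ_pos _
  let st : Y → δ × List Bool → Bool → δ × List Bool := fun y x b =>
    if (x.2 ++ [b]).length < T y then (x.1, x.2 ++ [b])
    else (if sz (D ((y, x.1), x.2 ++ [b])) ≤ C y then D ((y, x.1), x.2 ++ [b]) else s y, [])
  have hst : PT (fun x : Y × (δ × List Bool) × Bool => st x.1 x.2.1 x.2.2) := by
    simp only [st]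
    fun_prop
  have hinv : ∀ y (l : List Bool) (x : δ × List Bool), sz x.1 ≤ C y → x.2.length < T y →
      sz (l.foldl (st y) x).1 ≤ C y ∧ (l.foldl (st y) x).2.length < T y := by
    intro y l
    induction l with
    | nil => intro x h1 h2; exact ⟨h1, h2⟩
    | cons b l ih =>
      intro x h1 h2
      rw [List.foldl_cons]
      have h0 : sz (s y) ≤ C y := (hb y 0 (Nat.zero_le _)).trans (hq y)
      apply ih
      · simp only [st]
        split_ifs <;> assumption
      · simp only [st]
        split_ifs
        · assumption
        · exact hT0 y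
        · exact hT0 y
  let run : Y × List Bool → δ × List Bool := fun x => x.2.foldl (st x.1) (s x.1, [])
  have hrun : PT run := by
    refine PT.foldl (f := fun x : Y × List Bool => st x.1) ?_ (by fun_prop) (by fun_prop)
      (B := fun x => 2 * C x.1 + 1 + 3 * T x.1) (PT.pb (by fun_prop)) (fun x k => ?_)
    · exact hst.comp (f := fun z : (Y × List Bool) × (δ × List Bool) × Bool => (z.1.1, z.2))
        (by fun_prop)
    · have := hinv x.1 (x.2.take k) (s x.1, []) ((hb _ 0 (Nat.zero_le _)).trans (hq _)) (hT0 _)
      rw [← Prod.mk.eta (p := List.foldl _ _ _), sz_prod, sz_bits]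
      omega
  let R : Y × List Bool → List Bool := fun x => Q ((x.1, (run x).1), (run x).2)
  have hstep : ∀ y k, run (y, answers A R y (k + 1)) = st y (run (y, answers A R y k))
      (A (Q ((y, (run (y, answers A R y k)).1), (run (y, answers A R y k)).2))) := by
    intro y k
    simp only [run, answers_succ, List.foldl_append, List.foldl_cons, List.foldl_nil, R]
  have h1 : ∀ y k c, run (y, answers A R y k) = (c, []) → ∀ j < T y,
      run (y, answers A R y (k + j)) = (c, answers A Q (y, c) j) := by
    intro y k c hc j hj
    induction j with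
    | zero => exact hc
    | succ j ih =>
      rw [← add_assoc, hstep, ih (by omega)]
      simp only [st, ← answers_succ, length_answers]
      rw [if_pos hj]
  have h2 : ∀ y, ∀ i ≤ n y, run (y, answers A R y (i * T y)) = ((g y)^[i] (s y), []) := by
    intro y i hi
    induction i with
    | zero => simp [run, answers]
    | succ i ih =>
      have e : (i + 1) * T y = i * T y + (T y - 1) + 1 := by
        have := hT0 y
        rw [add_mul]; omega
      have hb1 := (hb y i (by omega)).trans (hq y)
      have hb2 := (hb y (i + 1) hi).trans (hq y)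
      rw [e, hstep, h1 y _ _ (ih (by omega)) _ (by have := hT0 y; omega)]
      have e2 := h (y, (g y)^[i] (s y)) (T y - 1 + 1) (by
        rw [sz_prod]
        exact (eval_mono p (by simp only [C]; omega)).trans
          (show p.eval (2 * sz y + 1 + C y) ≤ T y - 1 + 1 by simp only [T]; omega))
      rw [Function.iterate_succ_apply'] at hb2 ⊢
      simp only [st, ← answers_succ, length_answers, e2]
      rw [if_neg (by have := hT0 y; omega), if_pos hb2]
  refine OC.of_pb R (fun x => (run (x.1, x.2.take (n x.1 * T x.1))).1) (fun y => n y * T y)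
    (by fun_prop) (by fun_prop) (hn.pb.mul hT.pb) (fun y k hk => ?_)
  simp only
  rw [take_answers _ _ hk, h2 y _ le_rfl]

theorem OC.map [Inhabited β] [Inhabited δ] {f : Y → β → δ}
    (hf : OC A (fun p : Y × β => f p.1 p.2)) {l : Y → List β} (hl : PT l) :
    OC A (fun y => (l y).map (f y)) := by
  obtain ⟨q, hq⟩ := hf.pb_sz
  let g : Y → List β × List δ → List β × List δ := fun y x =>
    (x.1.tail, x.2 ++ [f y (x.1.headD default)])
  have key : ∀ y, ∀ i ≤ (l y).length,
      (g y)^[i] (l y, []) = ((l y).drop i, ((l y).take i).map (f y)) := by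
    intro y i hi
    induction i with
    | zero => rfl
    | succ i ih =>
      rw [Function.iterate_succ_apply', ih (by omega)]
      simp only [g, List.tail_drop]
      rw [List.take_add_one, List.map_append, List.headD_eq_head?_getD, List.head?_drop,
        List.getElem?_eq_getElem (by omega)]
      rfl
  have hg : OC A (fun p : Y × List β × List δ => g p.1 p.2) :=
    (hf.pre (g := fun p : Y × List β × List δ => (p.1, p.2.1.headD default)) (by fun_prop)).post
      (v := fun z : (Y × List β × List δ) × δ => (z.1.2.1.tail, z.1.2.2 ++ [z.2])) (by fun_prop)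
  have := OC.iter hg hl.length (s := fun y => (l y, [])) (by fun_prop)
    (B := fun y => 2 * sz (l y) + 1 + (l y).length * (2 * q.eval (2 * sz y + 1 + sz (l y)) + 1))
    ((((PB.const 2).mul hl.pb_sz).add (PB.const 1)).add (hl.pb_length.mul
      (((PB.const 2).mul (PB.eval q ((((PB.const 2).mul PB.sz).add (PB.const 1)).add
        hl.pb_sz))).add (PB.const 1))))
    (fun y i hi => by
      rw [key y i hi, sz_prod]
      have h1 := sz_drop_le (l y) i
      have h2 := sz_le_of_forall (l := ((l y).take i).map (f y))
        (B := q.eval (2 * sz y + 1 + sz (l y))) (fun c hc => by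
          obtain ⟨b, hb, rfl⟩ := List.mem_map.1 hc
          refine (hq (y, b)).trans (eval_mono q ?_)
          have := sz_le_of_mem (List.mem_of_mem_take hb)
          rw [sz_prod]; omega)
      have h3 : (((l y).take i).map (f y)).length ≤ (l y).length := by simp
      have h4 := Nat.mul_le_mul_right (2 * q.eval (2 * sz y + 1 + sz (l y)) + 1) h3
      omega)
  refine (this.post (v := fun z => z.2.2) (by fun_prop)).congr (fun y => ?_)
  simp only
  rw [key y _ le_rfl, List.take_length]

theorem OC.all [Inhabited β] {f : Y → β → Bool}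
    (hf : OC A (fun p : Y × β => f p.1 p.2)) {l : Y → List β} (hl : PT l) :
    OC A (fun y => (l y).all (f y)) :=
  ((hf.map hl).post (v := fun z => z.2.all (fun b => b)) (by fun_prop)).congr
    (fun y => by simp only [List.all_map]; rfl)

theorem OC.mem_BPPrel {L : List Bool → Bool} {alg : List Bool × List Bool → Bool} (h : OC A alg)
    (p : Polynomial ℕ) (hp : ∀ x, 2 * 2 ^ p.eval x.length ≤ 3 * (Finset.univ.filter
      fun r : Fin (p.eval x.length) → Bool => alg (x, List.ofFn r) = L x).card) :
    L ∈ BPPrel A := by
  obtain ⟨Q, D, q, hQ, hD, h⟩ := h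
  have ab := agree_list agree_bool
  refine ⟨p, q.comp (6 * Polynomial.X + 1 + 3 * p), Q, D,
    hQ.isPolyTime (agree_prod (agree_prod ab ab) ab) ab,
    hD.isPolyTime (agree_prod (agree_prod ab ab) ab) agree_bool, fun x => ?_⟩
  have e : ∀ r : Fin (p.eval x.length) → Bool,
      D ((x, List.ofFn r), answers A Q (x, List.ofFn r)
        ((q.comp (6 * Polynomial.X + 1 + 3 * p)).eval x.length)) = alg (x, List.ofFn r) := by
    intro r
    apply h
    rw [Polynomial.eval_comp, sz_prod, sz_bits, sz_bits]
    apply eval_mono
    simp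
    omega
  simp only [e]
  rw [div_le_div_iff₀ (by norm_num) (by positivity), mul_comm _ (3 : ℚ)]
  exact_mod_cast hp x

theorem card_filter_valL (n : ℕ) (P : ℕ → Prop) [DecidablePred P] :
    (Finset.univ.filter fun r : Fin n → Bool => P (valL (List.ofFn r))).card =
      ((Finset.range (2 ^ n)).filter P).card := by
  have hinj : ∀ l m : List Bool, l.length = m.length → valL l = valL m → l = m := by
    intro l
    induction l with
    | nil => intro m h _; exact (List.length_eq_zero_iff.1 h.symm).symm
    | cons b l ih =>
      intro m h h'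
      cases m with
      | nil => simp at h
      | cons c m =>
        rw [valL_cons, valL_cons] at h'
        have hbc : b = c := by cases b <;> cases c <;> simp at h' ⊢ <;> omega
        subst hbc
        rw [ih m (by simpa using h) (by omega)]
  have hi : Function.Injective (fun r : Fin n → Bool => valL (List.ofFn r)) := fun r s h =>
    List.ofFn_injective (hinj _ _ (by simp) h)
  have him : Finset.univ.image (fun r : Fin n → Bool => valL (List.ofFn r)) =
      Finset.range (2 ^ n) := by
    apply Finset.eq_of_subset_of_card_le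
    · intro k hk
      obtain ⟨r, -, rfl⟩ := Finset.mem_image.1 hk
      simpa using valL_lt (List.ofFn r)
    · rw [Finset.card_image_of_injective _ hi]; simp
  rw [← him, Finset.filter_image, Finset.card_image_of_injective _ hi]

end Pool.Agent.MP_7d676c_lc
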