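import Mathlib
import Pool.Agent.MP_7d676c_lc.Arith

/-! Decoding of bit strings, parsing and modular evaluation of straight-line programs. -/

namespace Pool.Agent.MP_7d676c_lc

open Pool.Agent.MP_2e8011_lc Pool.Agent.MP_a6d740_lc Pool.Agent.MP_b0ee3d_lc

/-- Codes can be decoded in polynomial time. -/
def Dec (α : Type) [Enc α] : Prop := ∃ d : List Bool → α, PT d ∧ ∀ a, d (enc a) = a

theorem pt_split1_Slp {α : Type} [Enc α] {g : α → List Bool} (hg : PT g) :
    PT (fun a => (split (g a)).1) :=
  CP.toBits (CP.fst (g := g) (PT.mkRaw hg))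

theorem pt_split2_Slp {α : Type} [Enc α] {g : α → List Bool} (hg : PT g) :
    PT (fun a => (split (g a)).2) :=
  CP.toBits (CP.snd (g := g) (PT.mkRaw hg))

theorem sz_bits_Slp (l : List Bool) : sz l = 3 * l.length := by
  induction l with
  | nil => rfl
  | cons b l ih => rw [sz_cons, ih, sz_bool, List.length_cons]; omega

theorem dec_nat : Dec ℕ := by
  exact ⟨fun l => l.length, PT.length PT.id, fun a => by simp [enc_nat]⟩

theorem dec_bin : Dec Bin := by
  have key : ∀ l : List Bool, l.foldr Bin.bit ⟨0⟩ = ⟨valL l⟩ := by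
    intro l
    induction l with
    | nil => rfl
    | cons b l ih => rw [List.foldr_cons, ih]; rfl
  have h := pt_foldr (α := List Bool) (f := fun _ => Bin.bit) (by fun_prop) PT.id
    (PT.const (⟨0⟩ : Bin)) (PT.pb_length PT.id) (fun a k => by
      rw [key]
      exact (sz_bin_le (valL_lt _)).trans (by simp))
  exact ⟨fun l => ⟨valL l⟩, h.congr fun a => key a, fun a => by simp only [enc_bin, valL_bits]⟩

theorem dec_int : Dec ℤ := by
  obtain ⟨d, hd, e⟩ := dec_bin
  refine ⟨fun l => ((d (split l).1).val : ℤ) - (d (split l).2).val,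
    pt_diff (hd.comp (pt_split1_Slp PT.id)) (hd.comp (pt_split2_Slp PT.id)) fun _ => rfl,
    fun z => ?_⟩
  have h : enc z = delim (enc (Bin.mk z.toNat)) ++ enc (Bin.mk (-z).toNat) := rfl
  simp only [h, split_delim, e]
  omega

theorem dec_prod {α β : Type} [Enc α] [Enc β] (ha : Dec α) (hb : Dec β) : Dec (α × β) := by
  obtain ⟨d, hd, e⟩ := ha
  obtain ⟨d', hd', e'⟩ := hb
  refine ⟨fun l => (d (split l).1, d' (split l).2),
    (hd.comp (pt_split1_Slp PT.id)).prodMk (hd'.comp (pt_split2_Slp PT.id)), fun p => ?_⟩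
  obtain ⟨a, b⟩ := p
  simp only [enc_prod, split_delim, e, e']

/-- one step of the decomposition into blocks -/
def step_Slp (s : List Bool × List (List Bool)) : List Bool × List (List Bool) :=
  bif s.1.isEmpty then s else ((split s.1).2, s.2 ++ [(split s.1).1])

theorem step_enc_Slp {α : Type} [Enc α] (L : List α) : ∀ (n : ℕ) (acc : List (List Bool)),
    L.length ≤ n → step_Slp^[n] (enc L, acc) = ([], acc ++ L.map enc) := by
  induction L with
  | nil =>
    intro n acc _
    rw [Function.iterate_fixed (by rfl)]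
    simp [enc_nil]
  | cons a L ih =>
    intro n acc hn
    obtain ⟨n, rfl⟩ : ∃ k, n = k + 1 := ⟨n - 1, by simp at hn; omega⟩
    have h : step_Slp (enc (a :: L), acc) = (enc L, acc ++ [enc a]) := by
      have h0 : (delim (enc a) ++ enc L).isEmpty = false := by simp [delim_ne_nil]
      simp only [step_Slp, enc_cons, h0, split_delim, cond_false]
    rw [Function.iterate_succ_apply, h, ih n _ (by simpa using hn)]
    simp

theorem step_size_Slp (l : List Bool) (i : ℕ) : (step_Slp^[i] (l, [])).1.length ≤ l.length ∧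
    (step_Slp^[i] (l, [])).2.length ≤ i ∧ ∀ b ∈ (step_Slp^[i] (l, [])).2, b.length ≤ l.length := by
  induction i with
  | zero => simp
  | succ i ih =>
    rw [Function.iterate_succ_apply']
    generalize step_Slp^[i] (l, []) = s at ih
    obtain ⟨a1, a2, a3⟩ := ih
    have a4 := split_length s.1
    unfold step_Slp
    cases s.1.isEmpty
    · refine ⟨by simp only [cond_false]; omega, by simpa using a2, fun b hb => ?_⟩
      simp only [cond_false, List.mem_append, List.mem_singleton] at hb
      rcases hb with hb | rfl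
      · exact a3 b hb
      · omega
    · exact ⟨a1, a2.trans (Nat.le_succ i), a3⟩

theorem dec_list {α : Type} [Enc α] [Inhabited α] (ha : Dec α) : Dec (List α) := by
  obtain ⟨d, hd, e⟩ := ha
  have h1 : PT step_Slp :=
    PT.cond (PT.isEmpty PT.id.fst) PT.id ((pt_split2_Slp PT.id.fst).prodMk
      (PT.append PT.id.snd ((pt_split1_Slp PT.id.fst).cons (PT.const []))))
  have hl : PB (fun l : List Bool => l.length) := PT.pb_length PT.id
  have h2 := PT.iter h1 (PT.length (PT.id (α := List Bool))) (PT.id.prodMk (PT.const []))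
    ((((PB.const 6).mul hl).add (PB.const 1)).add
      (hl.mul (((PB.const 6).mul hl).add (PB.const 1)))) (fun l i hi => by
      obtain ⟨a1, a2, a3⟩ := step_size_Slp l i
      have a4 := sz_le_of_forall (l := (step_Slp^[i] (l, [])).2) (B := 3 * l.length)
        fun b hb => by rw [sz_bits_Slp]; have := a3 b hb; omega
      have a5 := Nat.mul_le_mul_right (2 * (3 * l.length) + 1) (a2.trans hi)
      rw [← Prod.mk.eta (p := step_Slp^[i] (l, [])), sz_prod, sz_bits_Slp]
      rw [show 2 * (3 * l.length) = 6 * l.length by ring] at a4 a5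
      omega)
  refine ⟨fun l => (step_Slp^[l.length] (l, [])).2.map d,
    PT.map (f := fun _ => d) (hd.comp PT.id.snd) h2.snd, fun L => ?_⟩
  beta_reduce
  rw [step_enc_Slp L (enc L).length _ (length_le_sz L)]
  simp [Function.comp_def, e]

theorem res_evalMod (P : List (ℕ × ℕ × ℕ)) : Res (value P) (evalMod P) := by
  intro m hm
  have h0 : rd m 0 = 0 := by simp [rd]
  have h1 : ∀ (vs : List ℤ) (j : ℕ), (vs.map (rd m)).getD j 0 ≡ vs.getD j 0 [ZMOD m] := by
    intro vs j
    rw [← h0, List.getD_map, h0]
    exact rd_modEq hm _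
  have h2 : ∀ (vs : List ℤ) g, rd m (gateVal (vs.map (rd m)) g) = rd m (gateVal vs g) := by
    intro vs g
    rw [rd, rd, if_pos hm, if_pos hm]
    unfold gateVal
    split_ifs
    · rfl
    · rfl
    · exact (h1 _ _).add (h1 _ _)
    · exact (h1 _ _).sub (h1 _ _)
    · exact (h1 _ _).mul (h1 _ _)
  have h3 : ∀ vs : List ℤ, P.foldl (fun vs g => vs ++ [rd m (gateVal vs g)]) (vs.map (rd m)) =
      (P.foldl (fun vs g => vs ++ [gateVal vs g]) vs).map (rd m) := by
    induction P with
    | nil => intro vs; rfl
    | cons g P ih =>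
      intro vs
      rw [List.foldl_cons, List.foldl_cons, ← ih, h2, List.map_append]
      rfl
  have h4 := h3 []
  rw [List.map_nil] at h4
  rw [evalMod, h4, value]
  generalize P.foldl (fun vs g => vs ++ [gateVal vs g]) [] = vs
  induction vs using List.reverseRecOn with
  | nil => rfl
  | append_singleton vs x _ => simpa using rd_modEq hm x

theorem abs_value_le (P : List (ℕ × ℕ × ℕ)) : |value P| ≤ 2 ^ 2 ^ P.length := by
  have h : ∀ x ∈ P.foldl (fun vs g => vs ++ [gateVal vs g]) [], |x| ≤ 2 ^ 2 ^ P.length := by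
    induction P using List.reverseRecOn with
    | nil => simp
    | append_singleton P g ih =>
      rw [List.foldl_append, List.length_append, List.length_singleton, pow_succ 2 P.length,
        pow_mul]
      generalize P.foldl (fun vs g => vs ++ [gateVal vs g]) [] = vs at ih
      have h2 : (2 : ℤ) ≤ 2 ^ 2 ^ P.length := le_self_pow₀ one_le_two (by positivity)
      generalize (2 : ℤ) ^ 2 ^ P.length = B at ih h2
      have h1 : ∀ j, |vs.getD j 0| ≤ B := by
        intro j
        rw [List.getD_eq_getElem?_getD]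
        cases hj : vs[j]? with
        | none => simp; omega
        | some y => exact ih y (List.mem_of_getElem? hj)
      intro x hx
      simp only [List.foldl_cons, List.foldl_nil, List.mem_append, List.mem_singleton] at hx
      rcases hx with hx | rfl
      · nlinarith [ih x hx]
      · have a := h1 g.2.1
        have b := h1 g.2.2
        unfold gateVal
        split_ifs
        · simp; positivity
        · rw [abs_one]; nlinarith
        · nlinarith [abs_add_le (vs.getD g.2.1 0) (vs.getD g.2.2 0)]
        · nlinarith [abs_sub (vs.getD g.2.1 0) (vs.getD g.2.2 0)]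
        · rw [abs_mul, sq]
          exact mul_le_mul a b (abs_nonneg _) (by omega)
  rw [value]
  generalize P.foldl (fun vs g => vs ++ [gateVal vs g]) [] = vs at h
  induction vs using List.reverseRecOn with
  | nil => simp
  | append_singleton vs x _ => simpa using h x (by simp)

@[fun_prop] theorem pt_evalMod {α : Type} [Enc α] {P : α → List (ℕ × ℕ × ℕ)} {m : α → ℤ}
    (hP : PT P) (hm : PT m) : PT (fun a => evalMod (P a) (m a)) := by
  have key : ∀ (z : ℤ) (L : List (ℕ × ℕ × ℕ)),
      (L.foldl (fun vs g => vs ++ [rd z (gateVal vs g)]) []).length = L.length ∧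
      ∀ x ∈ L.foldl (fun vs g => vs ++ [rd z (gateVal vs g)]) [], |x| ≤ |z| := by
    intro z L
    induction L using List.reverseRecOn with
    | nil => simp
    | append_singleton L g ih =>
      rw [List.foldl_append]
      refine ⟨by simp [ih.1], fun x hx => ?_⟩
      simp only [List.foldl_cons, List.foldl_nil, List.mem_append, List.mem_singleton] at hx
      rcases hx with hx | rfl
      · exact ih.2 x hx
      · rw [abs_of_nonneg (rd_nonneg _ _)]
        exact rd_le_abs _ _
  have h := PT.foldl (f := fun a vs g => vs ++ [rd (m a) (gateVal vs g)])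
    (by unfold gateVal; fun_prop) hP (PT.const [])
    (hP.pb_length.mul (((PB.const 2).mul (((PB.const 3).mul hm.pb_sz).add (PB.const 4))).add
      (PB.const 1))) (fun a k => by
      obtain ⟨a1, a2⟩ := key (m a) ((P a).take k)
      refine (sz_le_of_forall (B := 3 * sz (m a) + 4) fun x hx =>
        sz_int_le ((a2 x hx).trans (abs_lt_sz _).le)).trans (Nat.mul_le_mul_right _ ?_)
      rw [a1]
      simp)
  exact pt_getLastD h (PT.const 0)

/-- a gate in binary -/
def toBin_Slp (g : ℕ × ℕ × ℕ) : Bin × Bin × Bin := (⟨g.1⟩, ⟨g.2.1⟩, ⟨g.2.2⟩)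

theorem code_Slp (P : List (ℕ × ℕ × ℕ)) : N487b59b3.bitEncode P = enc (P.map toBin_Slp) :=
  bitEncode_list (ι := toBin_Slp) (fun g => bitEncode_prod (ι := Bin.mk)
    (κ := fun p : ℕ × ℕ => (Bin.mk p.1, Bin.mk p.2)) bitEncode_bin
      (bitEncode_prod bitEncode_bin bitEncode_bin) g) P

/-- the validity test -/
def validB_Slp (P : List (ℕ × ℕ × ℕ)) : Bool :=
  !P.isEmpty && decide (∀ i < P.length, P.getD i (0, 0, 0) = (0, 0, 0) ∨
    P.getD i (0, 0, 0) = (1, 0, 0) ∨ (2 ≤ (P.getD i (0, 0, 0)).1 ∧ (P.getD i (0, 0, 0)).1 ≤ 4 ∧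
      (P.getD i (0, 0, 0)).2.1 < i ∧ (P.getD i (0, 0, 0)).2.2 < i))

theorem pt_validB_Slp : PT validB_Slp := by
  unfold validB_Slp
  fun_prop

theorem validB_iff_Slp (P : List (ℕ × ℕ × ℕ)) : validB_Slp P = true ↔ Valid P := by
  simp only [validB_Slp, Valid, Bool.and_eq_true, Bool.not_eq_true', List.isEmpty_eq_false_iff,
    decide_eq_true_eq, Fin.getElem_fin]
  refine and_congr_right fun _ => ⟨fun h i => ?_, fun h i hi => ?_⟩
  · have := h i i.2
    rwa [List.getD_eq_getElem _ _ i.2] at this
  · rw [List.getD_eq_getElem _ _ hi]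
    exact h ⟨i, hi⟩

theorem exists_parse : ∃ (par : List Bool → List (ℕ × ℕ × ℕ)) (ok : List Bool → Bool),
    PT par ∧ PT ok ∧ ∀ x, (ok x = true → (par x).length ≤ x.length) ∧
      PosSLP x = (ok x && decide (0 < value (par x))) := by
  obtain ⟨d, hd, e⟩ := dec_list (dec_prod dec_bin (dec_prod dec_bin dec_bin))
  have hpar : PT (fun x : List Bool => (d x).map fun t =>
      (t.1.cap (x.length + 5), t.2.1.cap (x.length + 5), t.2.2.cap (x.length + 5))) := by
    fun_prop
  generalize hp : (fun x : List Bool => (d x).map fun t =>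
      (t.1.cap (x.length + 5), t.2.1.cap (x.length + 5), t.2.2.cap (x.length + 5))) = par at hpar
  have hlen : ∀ P : List (ℕ × ℕ × ℕ), P.length ≤ (enc (P.map toBin_Slp)).length := fun P => by
    simpa [sz] using length_le_sz (P.map toBin_Slp)
  refine ⟨par, fun x => decide (enc ((par x).map toBin_Slp) = x) && validB_Slp (par x), hpar,
    PT.and (PT.eq (PT.enc (PT.map (f := fun _ => toBin_Slp) (by unfold toBin_Slp; fun_prop) hpar))
      PT.id) (pt_validB_Slp.comp hpar), fun x => ⟨fun h => ?_, ?_⟩⟩
  · simp only [Bool.and_eq_true, decide_eq_true_eq] at h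
    exact (hlen _).trans_eq (congrArg List.length h.1)
  · rw [Bool.eq_iff_iff]
    simp only [PosSLP, Bool.and_eq_true, decide_eq_true_eq, validB_iff_Slp, code_Slp]
    refine ⟨?_, fun h => ⟨par x, h.1.1, h.1.2, h.2⟩⟩
    rintro ⟨P, rfl, hV, h0⟩
    have h1 : par (enc (P.map toBin_Slp)) = P := by
      rw [← hp]
      beta_reduce
      rw [e, List.map_map]
      conv_rhs => rw [← List.map_id P]
      refine List.map_congr_left fun g hg => ?_
      obtain ⟨i, hi, rfl⟩ := List.getElem_of_mem hg
      have h2 := hlen P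
      have h3 := hV.2 ⟨i, hi⟩
      simp only [Fin.getElem_fin, Prod.ext_iff] at h3
      simp only [Function.comp_apply, toBin_Slp, Bin.cap, id, Prod.ext_iff]
      omega
    rw [h1]
    exact ⟨⟨rfl, hV⟩, h0⟩

end Pool.Agent.MP_7d676c_lc
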