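import Mathlib
import Pool.Agent.MP_7d676c_lc.Oracle
import Pool.Agent.MP_7d676c_lc.Slp
import Pool.Agent.MP_7d676c_lc.Sums

/-! Exponential sums of polynomial-time functions are computable with an oracle in PP. -/

namespace Pool.Agent.MP_7d676c_lc

open Finset Pool.Agent.MP_2e8011_lc Pool.Agent.MP_a6d740_lc Pool.Agent.MP_b0ee3d_lc

variable {α β : Type} [Enc α] [Enc β]

/-- Counting functions. -/
def SP (f : α → ℤ) : Prop :=
  ∃ (l : α → ℕ) (v : α → ℤ → ℤ), PT l ∧ PT (fun p : α × ℤ => v p.1 p.2) ∧ (∀ a u, 0 ≤ v a u) ∧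
    ∀ a, f a = ∑ u ∈ range (2 ^ l a), v a (u : ℕ)

theorem SP.ite {p : α → Prop} [DecidablePred p] (hp : PT (fun a => decide (p a))) {f g : α → ℤ}
    (hf : SP f) (hg : SP g) : SP (fun a => if p a then f a else g a) := by
  obtain ⟨l, v, hl, hv, h0, h⟩ := hf
  obtain ⟨l', v', hl', hv', h0', h'⟩ := hg
  refine ⟨fun a => if p a then l a else l' a, fun a u => if p a then v a u else v' a u,
    PT.ite hp hl hl', PT.ite (hp.comp (f := fun q : α × ℤ => q.1) (by fun_prop)) hv hv',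
    fun a u => ?_, fun a => ?_⟩
  · beta_reduce
    split_ifs
    · exact h0 a u
    · exact h0' a u
  · by_cases hpa : p a
    · simp only [if_pos hpa, h a]
    · simp only [if_neg hpa, h' a]

theorem sp_bound {l : α → ℕ} {v : α → ℤ → ℤ} (hl : PT l) (hv : PT (fun p : α × ℤ => v p.1 p.2)) :
    ∃ p : Polynomial ℕ, ∀ a, l a ≤ p.eval (sz a) ∧
      ∀ u < 2 ^ l a, v a (u : ℕ) < 2 ^ (p.eval (sz a) - l a) := by
  obtain ⟨q, hq⟩ := hv.pb_sz
  obtain ⟨p, hp⟩ := hl.pb.add (PB.eval q ((((PB.const 2).mul PB.sz).add (PB.const 1)).add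
    (((PB.const 3).mul hl.pb).add (PB.const 4))))
  refine ⟨p, fun a => ⟨(Nat.le_add_right _ _).trans (hp a), fun u hu => ?_⟩⟩
  have h1 : sz ((u : ℕ) : ℤ) ≤ 3 * l a + 4 := sz_int_le (by
    rw [abs_of_nonneg (by positivity)]; exact_mod_cast hu.le)
  have h2 := (hq (a, (u : ℕ))).trans (eval_mono q
    (show sz (a, ((u : ℕ) : ℤ)) ≤ 2 * sz a + 1 + (3 * l a + 4) by rw [sz_prod]; omega))
  have h3 := hp a
  refine ((le_abs_self _).trans_lt (abs_lt_sz _)).trans_le
    (pow_le_pow_right₀ (by norm_num) ?_)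
  simp only at h2 h3
  omega

theorem card_lt_int (C : ℕ) (v : ℤ) (h0 : 0 ≤ v) (h : v ≤ C) :
    ∑ c ∈ range C, (if ((c : ℕ) : ℤ) < v then (1 : ℤ) else 0) = v := by
  obtain ⟨k, rfl⟩ := Int.eq_ofNat_of_zero_le h0
  have hk : k ≤ C := by exact_mod_cast h
  rw [sum_boole]
  have : (range C).filter (fun c : ℕ => (c : ℤ) < k) = range k := by
    ext c
    simp only [mem_filter, mem_range, Nat.cast_lt]
    omega
  rw [this, card_range]

theorem SP.oracle (hd : Dec α) {f : α → ℤ} (hf : SP f) :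
    ∃ A ∈ PP, ∀ (a : α) (k : ℤ), 0 ≤ k → A (enc (a, k)) = decide (k < f a) := by
  obtain ⟨l, v, hl, hv, h0, h⟩ := hf
  obtain ⟨p, hp⟩ := sp_bound hl hv
  obtain ⟨d, hdp, hd⟩ := dec_prod hd dec_int
  let S : List Bool → ℕ → ℤ → Bool := fun y n W =>
    if W % 2 = 1 then decide (W / 2 / 2 ^ l (d y).1 < v (d y).1 (W / 2 % 2 ^ l (d y).1))
    else decide (W / 2 < 2 ^ n - (d y).2)
  let R : List Bool × List Bool → Bool := fun x => S x.1 (x.2.length - 1) (valL x.2)
  have hR : PT R := by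
    have hv' : ∀ {γ : Type} [Enc γ] {g : γ → α} {u : γ → ℤ}, PT g → PT u →
        PT (fun c => v (g c) (u c)) := fun hg hu => hv.comp (hg.prodMk hu)
    simp only [R, S]
    refine PT.ite (by fun_prop) (pt_intLt (by fun_prop) (hv' (by fun_prop) (by fun_prop)))
      (by fun_prop)
  refine ⟨fun y => decide (2 ^ (p + 1).eval y.length < 2 * (univ.filter
      fun w : Fin ((p + 1).eval y.length) → Bool => R (y, List.ofFn w)).card),
    ⟨p + 1, R, hR.isPolyTime_rel, fun y => by simp only [decide_eq_true_eq]⟩, fun a k hk => ?_⟩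
  beta_reduce
  set y := enc (a, k) with hy
  have hn : p.eval (sz a) ≤ p.eval y.length :=
    eval_mono p (show sz a ≤ sz (a, k) by rw [sz_prod]; omega)
  have e1 : (p + 1).eval y.length = p.eval y.length + 1 := by simp
  generalize (p + 1).eval y.length = n1 at e1 ⊢
  generalize p.eval y.length = n at e1 hn
  subst e1
  have e2 : (univ.filter fun w : Fin (n + 1) → Bool => R (y, List.ofFn w)).card =
      ((range (2 ^ (n + 1))).filter fun W : ℕ => S y n W = true).card := by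
    rw [← card_filter_valL]
    simp [R]
  have hln : l a ≤ n := (hp a).1.trans hn
  have e3 : (((range (2 ^ (n + 1))).filter fun W : ℕ => S y n W = true).card : ℤ) =
      (∑ W ∈ range (2 ^ n), if ((W : ℕ) : ℤ) < 2 ^ n - k then (1 : ℤ) else 0) + f a := by
    rw [card_filter, pow_succ']
    push_cast
    have := sum_range_mul 2 (2 ^ n) (fun b W => if b = 1 then
      (if ((W / 2 ^ l a : ℕ) : ℤ) < v a ((W % 2 ^ l a : ℕ) : ℤ) then (1 : ℤ) else 0)
      else if (W : ℤ) < 2 ^ n - k then 1 else 0)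
    rw [sum_range_succ, sum_range_one] at this
    simp only [zero_ne_one, if_false, if_true] at this
    have e4 : ∑ W ∈ range (2 ^ n),
        (if ((W / 2 ^ l a : ℕ) : ℤ) < v a ((W % 2 ^ l a : ℕ) : ℤ) then (1 : ℤ) else 0) = f a := by
      rw [show 2 ^ n = 2 ^ l a * 2 ^ (n - l a) by rw [← pow_add]; congr 1; omega,
        sum_range_mul (2 ^ l a) (2 ^ (n - l a))
          (fun u c => if ((c : ℕ) : ℤ) < v a (u : ℕ) then (1 : ℤ) else 0), h a]
      refine sum_congr rfl (fun u hu => card_lt_int _ _ (h0 _ _) ?_)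
      refine ((hp a).2 u (mem_range.1 hu)).le.trans ?_
      push_cast
      exact pow_le_pow_right₀ (by norm_num) (by omega)
    rw [← e4, ← this]
    refine sum_congr rfl (fun W _ => ?_)
    simp only [S, hy, hd]
    by_cases hW : W % 2 = 1
    · have hW' : (W : ℤ) % 2 = 1 := by exact_mod_cast hW
      simp only [if_pos hW, if_pos hW']
      simp
    · have hW' : ¬ (W : ℤ) % 2 = 1 := by exact_mod_cast hW
      simp only [if_neg hW, if_neg hW']
      simp
  have hf0 : 0 ≤ f a := by rw [h a]; exact sum_nonneg (fun u _ => h0 _ _)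
  have hf1 : f a ≤ 2 ^ n := by
    rw [h a]
    refine (sum_le_card_nsmul _ _ ((2 : ℤ) ^ (n - l a)) (fun u hu => ?_)).trans (le_of_eq ?_)
    · exact ((hp a).2 u (mem_range.1 hu)).le.trans (pow_le_pow_right₀ (by norm_num) (by omega))
    · rw [card_range, nsmul_eq_mul]
      push_cast
      rw [← pow_add]; congr 1; omega
  simp only [e2, decide_eq_decide]
  rw [← Int.ofNat_lt, Nat.cast_mul, e3]
  push_cast
  rw [pow_succ]
  by_cases hk2 : k ≤ 2 ^ n
  · rw [card_lt_int _ _ (by omega) (by push_cast; omega)]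
    omega
  · rw [sum_eq_zero (fun W _ => if_neg (by omega))]
    omega

theorem SP.oc (hd : Dec α) {f : α → ℤ} (hf : SP f) : ∃ A ∈ PP, OC A f := by
  obtain ⟨A, hA, h⟩ := hf.oracle hd
  refine ⟨A, hA, ?_⟩
  obtain ⟨l, v, hl, hv, h0, hs⟩ := hf
  obtain ⟨p, hp⟩ := sp_bound hl hv
  let H : α → ℕ := fun a => p.eval (sz a) + 1
  have hH : PT H := by
    have : PT (fun y : α => sz y) := PT.id.sz
    fun_prop
  have hf0 : ∀ a, 0 ≤ f a := fun a => by rw [hs a]; exact sum_nonneg (fun u _ => h0 _ _)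
  have hf1 : ∀ a, f a < 2 ^ H a := fun a => by
    rw [hs a]
    refine (sum_le_card_nsmul _ _ ((2 : ℤ) ^ (p.eval (sz a) - l a))
      (fun u hu => ((hp a).2 u (mem_range.1 hu)).le)).trans_lt ?_
    rw [card_range, nsmul_eq_mul]
    push_cast
    rw [← pow_add]
    exact pow_lt_pow_right₀ (by norm_num) (by have := (hp a).1; simp only [H]; omega)
  let g : α → ℤ × ℕ → ℤ × ℕ := fun a s =>
    (if A (enc (a, s.1 + 2 ^ (s.2 - 1) - 1)) = true then s.1 + 2 ^ (s.2 - 1) else s.1, s.2 - 1)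
  have key : ∀ a, ∀ i ≤ H a, ((g a)^[i] (0, H a)).2 = H a - i ∧ 0 ≤ ((g a)^[i] (0, H a)).1 ∧
      ((g a)^[i] (0, H a)).1 ≤ f a ∧ f a < ((g a)^[i] (0, H a)).1 + 2 ^ (H a - i) := by
    intro a i hi
    induction i with
    | zero => simpa using ⟨hf0 a, hf1 a⟩
    | succ i ih =>
      obtain ⟨h1, h2, h3, h4⟩ := ih (by omega)
      rw [Function.iterate_succ_apply']
      generalize (g a)^[i] (0, H a) = s at h1 h2 h3 h4
      have e : H a - i = H a - (i + 1) + 1 := by omega
      have hpos : (0 : ℤ) < 2 ^ (H a - (i + 1)) := by positivity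
      rw [e, pow_succ] at h4
      simp only [g, h1, show H a - i - 1 = H a - (i + 1) by omega]
      rw [h a _ (by omega)]
      simp only [decide_eq_true_eq, true_and]
      split_ifs <;> omega
  have hg : OC A (fun x : α × ℤ × ℕ => g x.1 x.2) :=
    (OC.query (q := fun x : α × ℤ × ℕ => enc (x.1, x.2.1 + 2 ^ (x.2.2 - 1) - 1))
      (by fun_prop)).post (v := fun z : (α × ℤ × ℕ) × Bool =>
        (if z.2 = true then z.1.2.1 + 2 ^ (z.1.2.2 - 1) else z.1.2.1, z.1.2.2 - 1)) (by fun_prop)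
  have := OC.iter hg hH (s := fun a => (0, H a)) (by fun_prop)
    (B := fun a => 2 * (3 * H a + 4) + 1 + H a) (PT.pb (by fun_prop)) (fun a i hi => by
      obtain ⟨h1, h2, h3, -⟩ := key a i hi
      rw [← Prod.mk.eta (p := (g a)^[i] _), sz_prod, sz_nat, h1]
      have := sz_int_le (z := ((g a)^[i] (0, H a)).1) (k := H a)
        (by rw [abs_of_nonneg h2]; exact h3.trans (hf1 a).le)
      omega)
  refine (this.post (v := fun z => z.2.1) (by fun_prop)).congr (fun a => ?_)
  obtain ⟨-, -, h3, h4⟩ := key a _ le_rfl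
  simp only [Nat.sub_self, pow_zero] at h4 ⊢
  omega

end Pool.Agent.MP_7d676c_lc
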