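import Mathlib
import Pool.Agent.MP_7d676c_lc.SP

/-! The algorithm runs in polynomial time with an oracle in PP. -/

namespace Pool.Agent.MP_7d676c_lc

open Finset Pool.Agent.MP_2e8011_lc Pool.Agent.MP_a6d740_lc Pool.Agent.MP_b0ee3d_lc

section

variable {α : Type} [Enc α]

@[fun_prop] theorem pt_fac {m y : α → ℤ} {s : α → Spec} (hm : PT m) (hs : PT s) (hy : PT y) :
    PT (fun x => fac (m x) (s x) (y x)) := by
  unfold fac
  fun_prop

@[fun_prop] theorem pt_term {L : α → ℕ} {m W : α → ℤ} {S : α → List Spec} (hL : PT L)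
    (hm : PT m) (hS : PT S) (hW : PT W) : PT (fun x => term (L x) (m x) (S x) (W x)) := by
  unfold term
  fun_prop

@[fun_prop] theorem pt_zs {a : α → ℕ} (ha : PT a) : PT (fun x => zs (a x)) := by
  unfold zs
  fun_prop

@[fun_prop] theorem pt_uS {a : α → ℕ} (ha : PT a) : PT (fun x => uS (a x)) := by
  unfold uS
  fun_prop

@[fun_prop] theorem pt_indS {a : α → ℕ} (ha : PT a) : PT (fun x => indS (a x)) := by
  unfold indS
  fun_prop

@[fun_prop] theorem pt_KK {a : α → ℕ} (ha : PT a) : PT (fun x => KK (a x)) := by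
  unfold KK
  fun_prop

@[fun_prop] theorem pt_aS {a : α → ℕ} {n m : α → ℤ} (ha : PT a) (hn : PT n) (hm : PT m) :
    PT (fun x => aS (a x) (n x) (m x)) := by
  unfold aS
  fun_prop

@[fun_prop] theorem pt_wl {a : α → ℕ} (ha : PT a) : PT (fun x => wl (a x)) := by
  unfold wl
  fun_prop

@[fun_prop] theorem pt_aa {P : α → List (ℕ × ℕ × ℕ)} {a : α → ℕ} {n V : α → ℤ} (hP : PT P)
    (ha : PT a) (hn : PT n) (hV : PT V) :
    PT (fun x => aa (evalMod (P x)) (a x) (n x) (V x)) := by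
  unfold aa
  fun_prop

@[fun_prop] theorem pt_vF {P : α → List (ℕ × ℕ × ℕ)} {a : α → ℕ} {n V : α → ℤ} (hP : PT P)
    (ha : PT a) (hn : PT n) (hV : PT V) :
    PT (fun x => vF (evalMod (P x)) (a x) (n x) (V x)) := by
  unfold vF
  have := pt_aa hP ha hn hV
  fun_prop

@[fun_prop] theorem pt_vX {P : α → List (ℕ × ℕ × ℕ)} {a : α → ℕ} {n q V : α → ℤ} (hP : PT P)
    (ha : PT a) (hn : PT n) (hq : PT q) (hV : PT V) :
    PT (fun x => vX (evalMod (P x)) (a x) (n x) (q x) (V x)) := by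
  unfold vX
  have := pt_aa hP ha hn hV
  exact pt_rd hq (pt_intMul this (by fun_prop))

@[fun_prop] theorem pt_vP {q d : α → ℤ} (hq : PT q) (hd : PT d) :
    PT (fun x => vP (q x) (d x)) := by
  unfold vP
  fun_prop

@[fun_prop] theorem pt_rr {a : α → ℕ} {F : α → ℤ} (ha : PT a) (hF : PT F) :
    PT (fun x => rr (a x) (F x)) := by
  unfold rr
  fun_prop

end

theorem aa_nonneg (nm : ℤ → ℤ) (a : ℕ) (n V : ℤ) : 0 ≤ aa nm a n V := by
  unfold aa
  split_ifs
  all_goals first | exact rd_nonneg _ _ | exact le_rfl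

theorem vF_nonneg (nm : ℤ → ℤ) (a : ℕ) (n V : ℤ) : 0 ≤ vF nm a n V :=
  Int.ediv_nonneg (mul_nonneg (by positivity) (aa_nonneg _ _ _ _))
    (Int.emod_nonneg _ (by positivity))

theorem vP_nonneg (q d : ℤ) : 0 ≤ vP q d := by
  unfold vP
  split_ifs <;> norm_num

/-- queries: a tag, the program, the parameter and two numbers -/
abbrev Qu := ℕ × (List (ℕ × ℕ × ℕ) × ℕ) × ℤ × ℤ

/-- the counting function used as an oracle -/
def orc (x : Qu) : ℤ :=
  if x.1 = 0 then FF (evalMod x.2.1.1) x.2.1.2 x.2.2.1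
  else if x.1 = 1 then XX (evalMod x.2.1.1) x.2.1.2 x.2.2.1 x.2.2.2
  else if x.1 = 2 then Ub x.2.1.2 x.2.2.2
  else if x.1 = 3 then Cb x.2.1.2 x.2.2.1 x.2.2.2
  else Pr x.2.1.2 x.2.2.2

theorem sp_orc : SP orc := by
  unfold orc
  refine SP.ite (by fun_prop) ?_ (SP.ite (by fun_prop) ?_ (SP.ite (by fun_prop) ?_
    (SP.ite (by fun_prop) ?_ ?_)))
  · exact ⟨fun x => wl x.2.1.2, fun x V => vF (evalMod x.2.1.1) x.2.1.2 x.2.2.1 V, by fun_prop,
      pt_vF (by fun_prop) (by fun_prop) (by fun_prop) (by fun_prop),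
      fun _ _ => vF_nonneg _ _ _ _, fun _ => rfl⟩
  · exact ⟨fun x => wl x.2.1.2, fun x V => vX (evalMod x.2.1.1) x.2.1.2 x.2.2.1 x.2.2.2 V,
      by fun_prop, pt_vX (by fun_prop) (by fun_prop) (by fun_prop) (by fun_prop) (by fun_prop),
      fun _ _ => rd_nonneg _ _, fun _ => rfl⟩
  · exact ⟨fun x => 6 * x.2.1.2 * (uS x.2.1.2).length,
      fun x V => term (6 * x.2.1.2) x.2.2.2 (uS x.2.1.2) V, by fun_prop, by fun_prop,
      fun _ _ => rd_nonneg _ _, fun _ => rfl⟩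
  · exact ⟨fun x => 6 * x.2.1.2,
      fun x V => term (6 * x.2.1.2) x.2.2.2 [(false, 2 * x.2.2.1, x.2.2.1)] V, by fun_prop,
      by fun_prop, fun _ _ => rd_nonneg _ _, fun _ => rfl⟩
  · exact ⟨fun x => 6 * x.2.1.2, fun x V => vP x.2.2.2 V, by fun_prop, by fun_prop,
      fun _ _ => vP_nonneg _ _, fun _ => rfl⟩

theorem dec_Qu : Dec Qu :=
  dec_prod dec_nat (dec_prod (dec_prod (dec_list (dec_prod dec_nat (dec_prod dec_nat dec_nat)))
    dec_nat) (dec_prod dec_int dec_int))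

section

variable {α : Type} [Enc α] {A : List Bool → Bool} (hA : OC A orc)
  {P : α → List (ℕ × ℕ × ℕ)} {a : α → ℕ} (hP : PT P) (ha : PT a)

include hA hP ha

theorem oc_FF {n : α → ℤ} (hn : PT n) : OC A (fun x => FF (evalMod (P x)) (a x) (n x)) :=
  hA.pre (g := fun x => ((0, (P x, a x), n x, 0) : Qu)) (by fun_prop)

theorem oc_chk {n q : α → ℤ} (hn : PT n) (hq : PT q) :
    OC A (fun x => chk (evalMod (P x)) (a x) (n x) (q x)) := by
  have h0 := oc_FF hA hP ha hn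
  have h1 : OC A (fun x => XX (evalMod (P x)) (a x) (n x) (q x)) :=
    hA.pre (g := fun x => ((1, (P x, a x), n x, q x) : Qu)) (by fun_prop)
  have h2 : OC A (fun x => Ub (a x) (q x)) :=
    hA.pre (g := fun x => ((2, (P x, a x), n x, q x) : Qu)) (by fun_prop)
  have h3 : OC A (fun x => Cb (a x) (n x) (q x)) :=
    hA.pre (g := fun x => ((3, (P x, a x), n x, q x) : Qu)) (by fun_prop)
  have h4 : OC A (fun x => Pr (a x) (q x)) :=
    hA.pre (g := fun x => ((4, (P x, a x), n x, q x) : Qu)) (by fun_prop)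
  exact (h0.pair (h1.pair (h2.pair (h3.pair h4)))).post
    (v := fun z : α × ℤ × ℤ × ℤ × ℤ × ℤ => decide (z.2.2.2.2.2 = 0 ∧ 3 * 2 ^ (2 * a z.1) < q z.1 →
      ((2 * evalMod (P z.1) (q z.1) - 1) * KK (a z.1) * z.2.2.2.1 +
        z.2.2.2.2.1 * (rr (a z.1) z.2.1 - z.2.2.1)) % q z.1 = 0)) (by fun_prop)

theorem oc_test {ρ n : α → ℤ} (hρ : PT ρ) (hn : PT n) :
    OC A (fun x => test (evalMod (P x)) (a x) (ρ x) (n x)) :=
  OC.all (f := fun x i => chk (evalMod (P x)) (a x) (n x) (dig (6 * a x) i (ρ x)))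
    (oc_chk hA (P := fun z : α × ℕ => P z.1) (a := fun z : α × ℕ => a z.1) (by fun_prop)
      (by fun_prop) (by fun_prop) (by fun_prop)) (by fun_prop)

theorem oc_endp {ρ : α → ℤ} (hρ : PT ρ) :
    OC A (fun x => endp (evalMod (P x)) (a x) (ρ x)) := by
  have hg : OC A (fun z : α × ℤ × ℤ => bs (evalMod (P z.1)) (a z.1) (ρ z.1) z.2) :=
    (oc_test hA (P := fun z : α × ℤ × ℤ => P z.1) (a := fun z => a z.1) (by fun_prop)
      (by fun_prop) (ρ := fun z => ρ z.1) (n := fun z => z.2.1 + z.2.2 / 2) (by fun_prop)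
      (by fun_prop)).post (v := fun z : (α × ℤ × ℤ) × Bool =>
        (if z.2 = true then z.1.2.1 else z.1.2.1 + z.1.2.2 / 2, z.1.2.2 / 2)) (by fun_prop)
  have key : ∀ (nm : ℤ → ℤ) (b : ℕ) (r C : ℤ) (i : ℕ) (s : ℤ × ℤ), 0 ≤ s.1 → 0 ≤ s.2 →
      s.1 + s.2 ≤ C → 0 ≤ ((bs nm b r)^[i] s).1 ∧ 0 ≤ ((bs nm b r)^[i] s).2 ∧
        ((bs nm b r)^[i] s).1 + ((bs nm b r)^[i] s).2 ≤ C := by
    intro nm b r C i
    induction i with
    | zero => intro s h1 h2 h3; exact ⟨h1, h2, h3⟩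
    | succ i ih =>
      intro s h1 h2 h3
      rw [Function.iterate_succ_apply]
      apply ih <;> simp only [bs] <;> (try split_ifs) <;> omega
  have := OC.iter (g := fun x => bs (evalMod (P x)) (a x) (ρ x)) hg (n := fun x => 2 * a x)
    (by fun_prop) (s := fun x => (2 ^ (2 * a x - 1), 2 ^ (2 * a x))) (by fun_prop)
    (B := fun x => 3 * (3 * (2 * a x + 1) + 4) + 1) (PT.pb (by fun_prop)) (fun x i _ => by
      obtain ⟨h1, h2, h3⟩ := key (evalMod (P x)) (a x) (ρ x) (2 ^ (2 * a x + 1)) i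
        (2 ^ (2 * a x - 1), 2 ^ (2 * a x)) (by positivity) (by positivity) (by
          have : (2 : ℤ) ^ (2 * a x - 1) ≤ 2 ^ (2 * a x) :=
            pow_le_pow_right₀ (by norm_num) (by omega)
          rw [pow_succ]; dsimp only; omega)
      generalize (bs (evalMod (P x)) (a x) (ρ x))^[i] _ = s at h1 h2 h3 ⊢
      have e1 := sz_int_le (z := s.1) (k := 2 * a x + 1) (by rw [abs_of_nonneg h1]; omega)
      have e2 := sz_int_le (z := s.2) (k := 2 * a x + 1) (by rw [abs_of_nonneg h2]; omega)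
      rw [← Prod.mk.eta (p := s), sz_prod]
      omega)
  exact this.post (v := fun z : α × ℤ × ℤ => z.2.1 + 1) (by fun_prop)

theorem oc_out {ρ : α → ℤ} (hρ : PT ρ) :
    OC A (fun x => out (evalMod (P x)) (a x) (ρ x)) :=
  ((oc_endp hA hP ha hρ).bind (v := fun z : α × ℤ => FF (evalMod (P z.1)) (a z.1) z.2)
    (oc_FF hA (by fun_prop) (by fun_prop) (by fun_prop))).post
    (v := fun z : α × ℤ => decide (rr (a z.1) z.2 * 2 ^ (wl (a z.1) + 4) ≤ z.2)) (by fun_prop)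

end

end Pool.Agent.MP_7d676c_lc
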