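import Mathlib
import Pool.Agent.MP_7d676c_lc.Sums

/-! Most random strings contain a prime that divides none of the given nonzero integers. -/

namespace Pool.Agent.MP_7d676c_lc

open Finset

theorem prime_count (L : ℕ) (hL : 2 ≤ L) :
    2 ^ L ≤ L * (((range (2 ^ L)).filter Nat.Prime).card + 1) := by
  obtain ⟨k, rfl⟩ : ∃ k, L = k + 1 := ⟨L - 1, by omega⟩
  have hN : 2 * 2 ^ k = 2 ^ (k + 1) := by ring
  have h1 := Nat.four_pow_le_two_mul_self_mul_centralBinom (2 ^ k) (by positivity)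
  have h2 := Nat.prod_pow_factorization_centralBinom (2 ^ k)
  rw [hN] at h1 h2
  have hnp : ¬ (2 ^ (k + 1)).Prime := fun h => by
    have := Nat.Prime.eq_one_of_pow h
    omega
  have h3 : ∏ p ∈ (range (2 ^ (k + 1))).filter Nat.Prime,
      p ^ (Nat.centralBinom (2 ^ k)).factorization p = Nat.centralBinom (2 ^ k) := by
    refine Eq.trans (Finset.prod_subset (fun p hp => ?_) fun p hp hp' => ?_) h2
    · have := mem_range.1 (mem_filter.1 hp).1
      exact mem_range.2 (by omega)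
    · have hpp : ¬ p.Prime := fun h => by
        refine hp' (mem_filter.2 ⟨mem_range.2 ?_, h⟩)
        have h4 := mem_range.1 hp
        have h5 : p ≠ 2 ^ (k + 1) := fun e => hnp (e ▸ h)
        omega
      rw [Nat.factorization_eq_zero_of_not_prime _ hpp, pow_zero]
  have h4 : Nat.centralBinom (2 ^ k) ≤
      (2 ^ (k + 1)) ^ ((range (2 ^ (k + 1))).filter Nat.Prime).card := by
    rw [← h3]
    refine Finset.prod_le_pow_card _ _ _ fun p _ => ?_
    rw [Nat.centralBinom, hN]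
    exact Nat.pow_factorization_choose_le (by positivity)
  have h5 : (4 : ℕ) ^ 2 ^ k = 2 ^ 2 ^ (k + 1) := by
    rw [← hN, pow_mul]; norm_num
  have h6 : 2 ^ 2 ^ (k + 1) ≤
      2 ^ ((k + 1) * (((range (2 ^ (k + 1))).filter Nat.Prime).card + 1)) := by
    rw [← h5, pow_mul, pow_succ']
    exact h1.trans (Nat.mul_le_mul_left _ h4)
  exact (Nat.pow_le_pow_iff_right (by norm_num)).1 h6

theorem card_pf_Prob (m k : ℕ) (h : m ≤ 2 ^ k) : m.primeFactors.card ≤ k := by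
  rcases Nat.eq_zero_or_pos m with rfl | hm
  · simp
  have h1 : 2 ^ m.primeFactors.card ≤ ∏ p ∈ m.primeFactors, p :=
    Finset.pow_card_le_prod _ _ _ fun p hp => (Nat.prime_of_mem_primeFactors hp).two_le
  have h2 := Nat.le_of_dvd hm (Nat.prod_primeFactors_dvd m)
  exact (Nat.pow_le_pow_iff_right (by norm_num)).1 (h1.trans (h2.trans h))

theorem third_Prob (a B g : ℕ) (ha : 0 < a) (hg : g ≤ B) (h : B ≤ 12 * a * g) :
    3 * (B - g) ^ (24 * a) ≤ B ^ (24 * a) := by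
  have ha' : (1 : ℝ) ≤ a := by exact_mod_cast ha
  obtain ⟨d, hd⟩ : ∃ d : ℝ, d = 1 / (12 * a) := ⟨_, rfl⟩
  have hd0 : 0 < d := by rw [hd]; positivity
  have hda : 12 * a * d = 1 := by rw [hd]; field_simp
  have hd1 : d ≤ 1 := by nlinarith
  have h' : (B : ℝ) ≤ 12 * a * g := by exact_mod_cast h
  have h1 : ((B - g : ℕ) : ℝ) ≤ (1 - d) * B := by
    rw [Nat.cast_sub hg]
    have : d * B ≤ d * (12 * a * g) := mul_le_mul_of_nonneg_left h' hd0.le
    have h2 : d * (12 * a * g) = g := by linear_combination (g : ℝ) * hda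
    linarith
  have h2 : (3 : ℝ) ≤ (1 + d) ^ (24 * a) := by
    have := one_add_mul_le_pow (a := d) (by linarith) (24 * a)
    push_cast at this
    linarith
  have h3 : (1 + d) ^ (24 * a) * (1 - d) ^ (24 * a) ≤ 1 := by
    rw [← mul_pow]
    exact pow_le_one₀ (by nlinarith) (by nlinarith)
  have h4 : ((B - g : ℕ) : ℝ) ^ (24 * a) ≤ (1 - d) ^ (24 * a) * (B : ℝ) ^ (24 * a) := by
    rw [← mul_pow]
    exact pow_le_pow_left₀ (by positivity) h1 _
  have h5 : 0 ≤ (1 - d) ^ (24 * a) := pow_nonneg (by linarith) _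
  have h6 : 3 * (1 - d) ^ (24 * a) ≤ 1 := (mul_le_mul_of_nonneg_right h2 h5).trans h3
  have h7 : (0 : ℝ) ≤ (B : ℝ) ^ (24 * a) := by positivity
  have h8 : 3 * ((B - g : ℕ) : ℝ) ^ (24 * a) ≤ (B : ℝ) ^ (24 * a) := by nlinarith
  exact_mod_cast h8

open Classical in
theorem bad_Prob (L k : ℕ) (G : Finset ℕ) (hG : G ⊆ range (2 ^ L)) :
    ((range (2 ^ (L * k))).filter fun ρ : ℕ => ¬ ∃ i < k, ∃ q ∈ G, dig L i ρ = (q : ℕ)).card ≤
      (2 ^ L - G.card) ^ k := by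
  have h := sum_dig (R := ℕ) L k fun _ y => if ∃ q ∈ G, y = (q : ℕ) then 0 else 1
  have h1 : ∑ y ∈ range (2 ^ L), (if ∃ q ∈ G, ((y : ℕ) : ℤ) = (q : ℕ) then 0 else 1 : ℕ)
      = 2 ^ L - G.card := by
    have h2 : ∀ y : ℕ, (∃ q ∈ G, ((y : ℕ) : ℤ) = (q : ℕ)) ↔ y ∈ G := fun y =>
      ⟨fun ⟨q, hq, e⟩ => by rw [Nat.cast_injective e]; exact hq, fun hy => ⟨y, hy, rfl⟩⟩
    simp only [h2]
    rw [← Finset.sum_sdiff hG, Finset.sum_congr rfl fun y hy => if_neg (mem_sdiff.1 hy).2,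
      Finset.sum_congr rfl fun y hy => if_pos hy]
    simp [card_sdiff_of_subset hG]
  rw [h1, prod_const, card_range] at h
  rw [← h, card_eq_sum_ones, sum_filter]
  refine sum_le_sum fun W _ => ?_
  split_ifs with hW
  · exact Nat.zero_le _
  · refine (Finset.prod_eq_one fun i hi => if_neg fun hq => hW ⟨i, mem_range.1 hi, hq⟩).ge

open Classical in
theorem many_good (a : ℕ) (ha : 8 ≤ a) (z : ℕ → ℤ)
    (hz : ∀ n, |z n| ≤ 2 ^ (3 * 2 ^ (2 * a))) :
    2 * 2 ^ (6 * a * (24 * a)) ≤ 3 * ((range (2 ^ (6 * a * (24 * a)))).filter fun ρ : ℕ =>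
      ∃ i < 24 * a, ∃ q : ℕ, dig (6 * a) i ρ = q ∧ q.Prime ∧ 3 * 2 ^ (2 * a) < q ∧
        ∀ n : ℕ, 2 * n ≤ 3 * 2 ^ (2 * a) → z n ≠ 0 → ¬ (q : ℤ) ∣ z n).card := by
  have hY : 256 * a ≤ 2 ^ (2 * a) := by
    have h1 : 2 ^ 8 ≤ 2 ^ a := Nat.pow_le_pow_right (by norm_num) ha
    have h2 : a ≤ 2 ^ a := Nat.lt_two_pow_self.le
    rw [two_mul, pow_add]
    exact Nat.mul_le_mul h1 h2
  have hB : 2 ^ (6 * a) = (2 ^ (2 * a)) ^ 3 := by rw [← pow_mul]; congr 1; ring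
  have hpc := prime_count (6 * a) (by omega)
  obtain ⟨Y, hYe⟩ : ∃ Y : ℕ, Y = 2 ^ (2 * a) := ⟨_, rfl⟩
  rw [← hYe] at hY hB hz ⊢
  obtain ⟨G, hG⟩ : ∃ G : Finset ℕ, G = (range (2 ^ (6 * a))).filter fun q : ℕ =>
      q.Prime ∧ 3 * Y < q ∧ ∀ n : ℕ, 2 * n ≤ 3 * Y → z n ≠ 0 → ¬ (q : ℤ) ∣ z n := ⟨_, rfl⟩
  have hGs : G ⊆ range (2 ^ (6 * a)) := by rw [hG]; exact filter_subset _ _
  have hsub : (range (2 ^ (6 * a))).filter Nat.Prime ⊆
      (G ∪ range (3 * Y + 1)) ∪ (range (2 * Y)).biUnion fun n => (z n).natAbs.primeFactors := by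
    intro q hq
    obtain ⟨hq1, hq2⟩ := mem_filter.1 hq
    by_cases h1 : 3 * Y < q
    · by_cases h2 : ∀ n : ℕ, 2 * n ≤ 3 * Y → z n ≠ 0 → ¬ (q : ℤ) ∣ z n
      · exact mem_union_left _ (mem_union_left _ (by rw [hG]; exact mem_filter.2 ⟨hq1, hq2, h1, h2⟩))
      · push Not at h2
        obtain ⟨n, hn, hn0, hd⟩ := h2
        refine mem_union_right _ (mem_biUnion.2 ⟨n, mem_range.2 (by omega), ?_⟩)
        exact Nat.mem_primeFactors.2 ⟨hq2, Int.natCast_dvd.1 hd, Int.natAbs_ne_zero.2 hn0⟩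
    · exact mem_union_left _ (mem_union_right _ (mem_range.2 (by omega)))
  have hc1 : ((range (2 * Y)).biUnion fun n => (z n).natAbs.primeFactors).card ≤
      2 * Y * (3 * Y) := by
    refine (card_biUnion_le_card_mul _ _ (3 * Y) fun n _ => card_pf_Prob _ _ ?_).trans_eq
      (by rw [card_range])
    have := hz n
    rw [← Int.natCast_natAbs] at this
    exact_mod_cast this
  have hc2 : ((range (2 ^ (6 * a))).filter Nat.Prime).card ≤
      G.card + (3 * Y + 1) + 2 * Y * (3 * Y) := by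
    refine (card_le_card hsub).trans ((card_union_le _ _).trans (Nat.add_le_add ?_ hc1))
    exact (card_union_le _ _).trans_eq (by rw [card_range])
  have hg : 2 ^ (6 * a) ≤ 12 * a * G.card := by
    rw [hB] at hpc hc2 ⊢
    generalize ((range (Y ^ 3)).filter Nat.Prime).card = P at hpc hc2
    have h1 : P + 1 ≤ G.card + 7 * Y ^ 2 := by nlinarith
    have h2 : 6 * a * (P + 1) ≤ 6 * a * (G.card + 7 * Y ^ 2) := Nat.mul_le_mul_left _ h1
    have h3 : 256 * a * Y ^ 2 ≤ Y * Y ^ 2 := Nat.mul_le_mul_right _ hY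
    nlinarith
  have h3 := third_Prob a _ _ (by omega) ((card_le_card hGs).trans_eq (card_range _)) hg
  have h4 := bad_Prob (6 * a) (24 * a) G hGs
  have h5 := card_filter_add_card_filter_not (s := range (2 ^ (6 * a * (24 * a))))
    (fun ρ : ℕ => ∃ i < 24 * a, ∃ q ∈ G, dig (6 * a) i ρ = (q : ℕ))
  have h6 : ((range (2 ^ (6 * a * (24 * a)))).filter
      fun ρ : ℕ => ∃ i < 24 * a, ∃ q ∈ G, dig (6 * a) i ρ = (q : ℕ)).card ≤
      ((range (2 ^ (6 * a * (24 * a)))).filter fun ρ : ℕ =>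
      ∃ i < 24 * a, ∃ q : ℕ, dig (6 * a) i ρ = q ∧ q.Prime ∧ 3 * Y < q ∧
        ∀ n : ℕ, 2 * n ≤ 3 * Y → z n ≠ 0 → ¬ (q : ℤ) ∣ z n).card := by
    refine card_le_card fun ρ hρ => ?_
    obtain ⟨h1, i, hi, q, hq, e⟩ := mem_filter.1 hρ
    rw [hG] at hq
    exact mem_filter.2 ⟨h1, i, hi, q, e, (mem_filter.1 hq).2⟩
  rw [card_range] at h5
  rw [← pow_mul] at h3
  omega

end Pool.Agent.MP_7d676c_lc
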