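import Mathlib
import Pool.Agent.MP_7d676c_lc.Frac
import Pool.Agent.MP_7d676c_lc.Chk
import Pool.Agent.MP_7d676c_lc.Prob

/-! Correctness of the binary search and of the whole randomized algorithm. -/

namespace Pool.Agent.MP_7d676c_lc

open Finset

theorem w_Search (N : ℤ) (nm : ℤ → ℤ) (a n : ℕ) :
    -(1 / 2) ≤ th N a n - QQ N nm a n ∧ th N a n - QQ N nm a n < 9 / 16 := by
  have h1 := xx_approx nm a n
  have h2 := rr_approx a (FF nm a n)
  rw [QQ]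
  constructor <;> linarith [h1.1, h1.2, h2.1, h2.2]

theorem small_Search {N : ℤ} {nm : ℤ → ℤ} (hN : Res N nm) {a n : ℕ} (ha : 8 ≤ a)
    (h1 : 2 ^ (2 * a) ≤ 2 * n) (h2 : 2 * n ≤ 3 * 2 ^ (2 * a)) (h : |th N a n| < 7 / 16) :
    QQ N nm a n = 0 := by
  obtain ⟨z, hz⟩ := QQ_int hN ha h1 h2
  have hw := w_Search N nm a n
  rw [hz] at hw ⊢
  rw [abs_lt] at h
  have a1 : (-1 : ℚ) < z := by linarith [hw.2, h.1]
  have a2 : (z : ℚ) < 1 := by linarith [hw.1, h.2]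
  have a3 : -1 < z := by exact_mod_cast a1
  have a4 : z < 1 := by exact_mod_cast a2
  obtain rfl : z = 0 := by omega
  simp

theorem sign_Search (N : ℤ) (a : ℕ) : (0 < N → 0 < (2 * N - 1) * KK a * UU a) ∧
    (¬ 0 < N → (2 * N - 1) * KK a * UU a < 0) := by
  have h1 := KK_pos a
  have h2 : (0 : ℤ) < UU a := by exact_mod_cast UU_pos a
  exact ⟨fun h => mul_pos (mul_pos (by omega) h1) h2,
    fun h => mul_neg_of_neg_of_pos (mul_neg_of_neg_of_pos (by omega) h1) h2⟩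

theorem ne_Search (N : ℤ) (a : ℕ) : (2 * N - 1) * KK a * UU a ≠ 0 := by
  by_cases h : 0 < N
  · exact ((sign_Search N a).1 h).ne'
  · exact ((sign_Search N a).2 h).ne

theorem cb_pos_Search (n : ℕ) : (0 : ℚ) < Nat.centralBinom n := by
  exact_mod_cast Nat.centralBinom_pos n

theorem lo_Search (N : ℤ) (nm : ℤ → ℤ) {a n : ℕ} (h : 2 * n = 2 ^ (2 * a)) : QQ N nm a n ≠ 0 := by
  intro hq
  have hw := w_Search N nm a n
  have hP : PS a n = ∅ := by
    rw [PS, Ioc_eq_empty (by omega), filter_empty]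
  obtain ⟨c, hc⟩ := cb_dvd a n (by omega) (by omega)
  rw [hP, prod_empty, mul_one] at hc
  have e : th N a n = (((2 * N - 1) * KK a * c : ℤ) : ℚ) := by
    rw [th, hc, div_eq_iff (cb_pos_Search n).ne']
    push_cast
    ring
  have hne : (2 * N - 1) * KK a * c ≠ 0 := fun z => ne_Search N a (by
    rw [hc, Nat.cast_mul, mul_left_comm, z, mul_zero])
  rw [hq, sub_zero, e] at hw
  have a1 : (-1 : ℚ) < ((2 * N - 1) * KK a * c : ℤ) := by linarith [hw.1]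
  have a2 : (((2 * N - 1) * KK a * c : ℤ) : ℚ) < 1 := by linarith [hw.2]
  have a3 : -1 < (2 * N - 1) * KK a * c := by exact_mod_cast a1
  have a4 : (2 * N - 1) * KK a * c < 1 := by exact_mod_cast a2
  omega

theorem hi_Search {N : ℤ} {nm : ℤ → ℤ} (hN : Res N nm) {a n : ℕ} (ha : 8 ≤ a)
    (hs : |N| ≤ 2 ^ 2 ^ (a - 8)) (h : 2 * n = 3 * 2 ^ (2 * a)) : QQ N nm a n = 0 := by
  have hY : 0 < 2 ^ (2 * a) := by positivity
  refine small_Search hN ha (by omega) h.le ?_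
  have h1 := Nat.four_pow_le_two_mul_self_mul_centralBinom n (by omega)
  rw [show 4 ^ n = 2 ^ (2 * n) by rw [pow_mul]; norm_num, h] at h1
  have h2 := size_bound a ha N hs
  have h3 : (2 : ℤ) ^ (3 * 2 ^ (2 * a)) ≤ 3 * 2 ^ (2 * a) * Nat.centralBinom n := by
    exact_mod_cast h1
  have h4 : 8 * |(2 * N - 1) * KK a * UU a| ≤ 3 * (Nat.centralBinom n : ℤ) := by
    refine le_of_mul_le_mul_left (a := 2 ^ (2 * a)) ?_ (by positivity)
    linarith
  have h5 : 8 * |(((2 * N - 1) * KK a * UU a : ℤ) : ℚ)| ≤ 3 * (Nat.centralBinom n : ℚ) := by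
    exact_mod_cast h4
  have := cb_pos_Search n
  rw [th, abs_div, abs_of_pos this, div_lt_iff₀ this]
  linarith

theorem inv_Search {N : ℤ} {nm : ℤ → ℤ} (hN : Res N nm) {a : ℕ} (ha : 8 ≤ a)
    (hs : |N| ≤ 2 ^ 2 ^ (a - 8)) (ρ : ℤ)
    (hρ : ∀ n : ℕ, 2 ^ (2 * a) ≤ 2 * n → 2 * n ≤ 3 * 2 ^ (2 * a) →
      (test nm a ρ n = true ↔ QQ N nm a n = 0)) (k : ℕ) : ∀ j, k + j = 2 * a → ∃ lo : ℕ,
      (bs nm a ρ)^[k] (2 ^ (2 * a - 1), 2 ^ (2 * a)) = ((lo : ℤ), 2 ^ j) ∧ 2 ^ (2 * a) ≤ 2 * lo ∧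
      2 * (lo + 2 ^ j) ≤ 3 * 2 ^ (2 * a) ∧ QQ N nm a lo ≠ 0 ∧ QQ N nm a (lo + 2 ^ j) = 0 := by
  induction k with
  | zero =>
    intro j hj
    obtain rfl : j = 2 * a := by omega
    have e : 2 * 2 ^ (2 * a - 1) = 2 ^ (2 * a) := by
      rw [← pow_succ']
      congr 1
      omega
    exact ⟨2 ^ (2 * a - 1), by simp, e.ge, by omega, lo_Search N nm e, hi_Search hN ha hs (by omega)⟩
  | succ k ih =>
    intro j hj
    obtain ⟨lo, e, h1, h2, h3, h4⟩ := ih (j + 1) (by omega)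
    have hp : 0 < 2 ^ j := by positivity
    rw [pow_succ] at h2 h4
    have hd : (2 : ℤ) ^ (j + 1) / 2 = 2 ^ j := by rw [pow_succ, Int.mul_ediv_cancel _ two_ne_zero]
    have ht := hρ (lo + 2 ^ j) (by omega) (by omega)
    push_cast at ht
    rw [Function.iterate_succ_apply', e, bs]
    simp only [hd]
    by_cases c : QQ N nm a (lo + 2 ^ j) = 0
    · exact ⟨lo, by rw [if_pos (ht.2 c)], h1, by omega, h3, c⟩
    · refine ⟨lo + 2 ^ j, by rw [if_neg fun t => c (ht.1 t)]; simp, by omega, by omega, c, ?_⟩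
      rwa [show lo + 2 ^ j + 2 ^ j = lo + 2 ^ j * 2 by ring]

theorem out_correct {N : ℤ} {nm : ℤ → ℤ} (hN : Res N nm) {a : ℕ} (ha : 8 ≤ a)
    (hs : |N| ≤ 2 ^ 2 ^ (a - 8)) (ρ : ℤ)
    (hρ : ∀ n : ℕ, 2 ^ (2 * a) ≤ 2 * n → 2 * n ≤ 3 * 2 ^ (2 * a) →
      (test nm a ρ n = true ↔ QQ N nm a n = 0)) :
    out nm a ρ = decide (0 < N) := by
  obtain ⟨lo, e, h1, h2, h3, h4⟩ := inv_Search hN ha hs ρ hρ (2 * a) 0 rfl
  rw [pow_zero] at h2 h4
  have he : endp nm a ρ = ((lo + 1 : ℕ) : ℤ) := by rw [endp, e]; simp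
  have t1 : 7 / 16 ≤ |th N a lo| := not_lt.1 fun c => h3 (small_Search hN ha h1 (by omega) c)
  have c1 : (Nat.centralBinom (lo + 1) : ℚ) ≤ 4 * Nat.centralBinom lo := by
    have := Nat.succ_mul_centralBinom_succ lo
    have h : Nat.centralBinom (lo + 1) ≤ 4 * Nat.centralBinom lo := by
      refine Nat.le_of_mul_le_mul_left (c := lo + 1) ?_ (by omega)
      rw [this]
      nlinarith [Nat.centralBinom_pos lo]
    exact_mod_cast h
  have p0 := cb_pos_Search lo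
  have p1 := cb_pos_Search (lo + 1)
  have t2 : 7 / 64 ≤ |th N a (lo + 1)| := by
    rw [th, abs_div, abs_of_pos p0, le_div_iff₀ p0] at t1
    rw [th, abs_div, abs_of_pos p1, le_div_iff₀ p1]
    linarith
  have x1 := xx_approx nm a ((lo + 1 : ℕ) : ℤ)
  rw [QQ] at h4
  have hp : (0 : ℚ) < 2 ^ (wl a + 4) := by positivity
  rw [out, he, decide_eq_decide]
  have key : rr a (FF nm a ((lo + 1 : ℕ) : ℤ)) * 2 ^ (wl a + 4) ≤ FF nm a ((lo + 1 : ℕ) : ℤ) ↔
      (rr a (FF nm a ((lo + 1 : ℕ) : ℤ)) : ℚ) ≤ (FF nm a ((lo + 1 : ℕ) : ℤ) : ℚ) / 2 ^ (wl a + 4) := by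
    rw [le_div_iff₀ hp]
    norm_cast
  rw [key]
  by_cases c : 0 < N
  · have : 0 < th N a (lo + 1) := div_pos (by exact_mod_cast (sign_Search N a).1 c) p1
    rw [abs_of_pos this] at t2
    exact iff_of_true (by linarith [x1.2]) c
  · have : th N a (lo + 1) < 0 := div_neg_of_neg_of_pos (by exact_mod_cast (sign_Search N a).2 c) p1
    exact iff_of_false (not_le.2 (by linarith [x1.1])) c

theorem dig_Search (L i : ℕ) (W : ℤ) : ∃ q : ℕ, dig L i W = q ∧ q < 2 ^ L := by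
  have h1 : 0 ≤ dig L i W := Int.emod_nonneg _ (by positivity)
  have h2 : dig L i W < 2 ^ L := Int.emod_lt_of_pos _ (by positivity)
  obtain ⟨q, hq⟩ := Int.eq_ofNat_of_zero_le h1
  exact ⟨q, hq, by rw [hq] at h2; exact_mod_cast h2⟩

theorem out_prob {N : ℤ} {nm : ℤ → ℤ} (hN : Res N nm) {a : ℕ} (ha : 8 ≤ a)
    (hs : |N| ≤ 2 ^ 2 ^ (a - 8)) :
    2 * 2 ^ (6 * a * (24 * a)) ≤ 3 * ((range (2 ^ (6 * a * (24 * a)))).filter fun ρ : ℕ =>
      out nm a ρ = decide (0 < N)).card := by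
  classical
  have hz : ∀ n : ℕ, ∃ z : ℤ, |z| ≤ 2 ^ (3 * 2 ^ (2 * a)) ∧
      (2 ^ (2 * a) ≤ 2 * n → 2 * n ≤ 3 * 2 ^ (2 * a) → QQ N nm a n = z) := by
    intro n
    by_cases c : 2 ^ (2 * a) ≤ 2 * n ∧ 2 * n ≤ 3 * 2 ^ (2 * a)
    · obtain ⟨z, hz⟩ := QQ_int hN ha c.1 c.2
      refine ⟨z, ?_, fun _ _ => hz⟩
      have hw := w_Search N nm a n
      have h1 : |th N a n| ≤ |(((2 * N - 1) * KK a * UU a : ℤ) : ℚ)| := by
        rw [th, abs_div, abs_of_pos (cb_pos_Search n)]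
        exact div_le_self (abs_nonneg _) (by exact_mod_cast Nat.centralBinom_pos n)
      have h2 : |(z : ℚ)| ≤ |(((2 * N - 1) * KK a * UU a : ℤ) : ℚ)| + 1 := by
        rw [abs_le] at h1 ⊢
        rw [hz] at hw
        constructor <;> linarith [h1.1, h1.2, hw.1, hw.2]
      have h3 : |z| ≤ |(2 * N - 1) * KK a * UU a| + 1 := by exact_mod_cast h2
      have h4 := size_bound a ha N hs
      have h5 : 1 ≤ |(2 * N - 1) * KK a * UU a| := Int.one_le_abs (ne_Search N a)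
      have h6 : (1 : ℤ) ≤ 2 ^ (2 * a) := one_le_pow₀ (by norm_num)
      nlinarith
    · exact ⟨0, by simp, fun a b => absurd ⟨a, b⟩ c⟩
  choose z z1 z2 using hz
  refine (many_good a ha z z1).trans (Nat.mul_le_mul_left 3 (card_le_card fun ρ hρ => ?_))
  rw [mem_filter] at hρ ⊢
  obtain ⟨h0, i, hi, q, q1, q2, q3, q4⟩ := hρ
  refine ⟨h0, out_correct hN ha hs ρ fun n n1 n2 => ?_⟩
  have hq := z2 n n1 n2
  rw [test, List.all_eq_true]
  constructor
  · intro t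
    have t1 := t i (List.mem_range.2 hi)
    obtain ⟨q', e1, e2⟩ := dig_Search (6 * a) i ρ
    obtain rfl : q' = q := by exact_mod_cast e1.symm.trans q1
    rw [q1, chk_iff hN ha n2 q2 q3 e2 hq] at t1
    by_contra c
    exact q4 n n2 (fun e => c (by rw [hq, e, Int.cast_zero])) t1
  · intro c j _
    obtain ⟨p, e1, e2⟩ := dig_Search (6 * a) j ρ
    rw [e1]
    by_cases hp : p.Prime ∧ 3 * 2 ^ (2 * a) < p
    · exact (chk_iff hN ha n2 hp.1 hp.2 e2 (z := 0) (by simpa using c)).2 (dvd_zero _)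
    · exact chk_of_not_prime nm a n p e2 hp

end Pool.Agent.MP_7d676c_lc
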