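import Mathlib
import Pool.Agent.MP_7d676c_lc.PTAlg
import Pool.Agent.MP_7d676c_lc.Search

/-! PosSLP is in BPP relative to an oracle in PP. -/

namespace Pool.Agent.MP_7d676c_lc

open Finset Pool.Agent.MP_2e8011_lc Pool.Agent.MP_a6d740_lc Pool.Agent.MP_b0ee3d_lc

attribute [local irreducible] out evalMod value

theorem posSLP_mem : ∃ A ∈ PP, PosSLP ∈ BPPrel A := by
  obtain ⟨A, hA, ho⟩ := sp_orc.oc dec_Qu
  obtain ⟨par, ok, hpar, hok, h⟩ := exists_parse
  refine ⟨A, hA, ?_⟩
  have h1 : OC A (fun y : List Bool × List Bool =>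
      out (evalMod (par y.1)) (y.1.length + 8) (valL y.2)) :=
    oc_out ho (by fun_prop) (by fun_prop) (by fun_prop)
  have h2 := h1.post (v := fun z : (List Bool × List Bool) × Bool => ok z.1.1 && z.2)
    (by fun_prop)
  refine h2.mem_BPPrel (6 * (Polynomial.X + 8) * (24 * (Polynomial.X + 8))) (fun x => ?_)
  have e : (6 * (Polynomial.X + 8) * (24 * (Polynomial.X + 8)) : Polynomial ℕ).eval x.length =
      6 * (x.length + 8) * (24 * (x.length + 8)) := by simp
  generalize (6 * (Polynomial.X + 8) * (24 * (Polynomial.X + 8)) : Polynomial ℕ).eval x.length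
    = k at e ⊢
  simp only [(h x).2]
  rw [card_filter_valL k (fun ρ => (ok x && out (evalMod (par x)) (x.length + 8) (ρ : ℕ)) =
    (ok x && decide (0 < value (par x))))]
  subst e
  cases hx : ok x
  · simp only [Bool.false_and, filter_true, card_range]
    omega
  · simp only [Bool.true_and]
    refine out_prob (res_evalMod _) (by omega) ((abs_value_le _).trans ?_)
    exact pow_le_pow_right₀ (by norm_num)
      (Nat.pow_le_pow_right (by norm_num) (by have := (h x).1 hx; omega))

end Pool.Agent.MP_7d676c_lc
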